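import Mathlib

set_option autoImplicit false

/-!
Definitions for topological realizations of the `(17_4)` configuration `C` and their symmetries.
-/

namespace Pool.Agent.H37.Cfg17

open scoped LinearAlgebra.Projectivization

/-- The Euclidean plane. -/
abbrev E2 : Type := EuclideanSpace ℝ (Fin 2)

/-- The real projective plane: the lines through the origin of `ℝ² × ℝ`. -/
abbrev RP2 : Type := ℙ ℝ (E2 × ℝ)

/-- The quotient topology on the real projective plane. -/
instance : TopologicalSpace RP2 :=
  inferInstanceAs (TopologicalSpace (Quotient (projectivizationSetoid ℝ (E2 × ℝ))))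

/-- The inclusion `x ↦ [x : 1]` of the Euclidean plane into the projective plane. -/
noncomputable def aff (x : E2) : RP2 :=
  Projectivization.mk ℝ (x, (1 : ℝ)) (fun h => one_ne_zero (congrArg Prod.snd h))

/-- The line at infinity: the points of the projective plane outside the Euclidean plane. -/
def lineAtInfinity : Set RP2 := (Set.range aff)ᶜ

/-- For an isometry `g` of the Euclidean plane, `g x = A x + b` with `A` linear, this is the linear
map `(x, t) ↦ (A x + t b, t)`. -/
noncomputable def homog (g : E2 ≃ᵢ E2) : (E2 × ℝ) →ₗ[ℝ] (E2 × ℝ) :=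
  LinearMap.prod
    (g.toRealAffineIsometryEquiv.linearIsometryEquiv.toLinearEquiv.toLinearMap ∘ₗ
        LinearMap.fst ℝ E2 ℝ +
      (LinearMap.toSpanSingleton ℝ E2 (g 0)) ∘ₗ LinearMap.snd ℝ E2 ℝ)
    (LinearMap.snd ℝ E2 ℝ)

lemma homog_apply (g : E2 ≃ᵢ E2) (x : E2) (t : ℝ) : homog g (x, t) =
    (g.toRealAffineIsometryEquiv.linearIsometryEquiv x + t • g 0, t) := rfl

lemma homog_injective (g : E2 ≃ᵢ E2) : Function.Injective (homog g) := by
  rintro ⟨x, t⟩ ⟨y, s⟩ h
  rw [homog_apply, homog_apply] at h
  have h2 : t = s := congrArg Prod.snd h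
  have h1 := congrArg Prod.fst h
  subst h2
  have h3 := add_right_cancel h1
  rw [g.toRealAffineIsometryEquiv.linearIsometryEquiv.injective h3]

/-- The extension of an isometry of the Euclidean plane to the real projective plane. -/
noncomputable def ext (g : E2 ≃ᵢ E2) : RP2 → RP2 :=
  Projectivization.map (homog g) (homog_injective g)

lemma linear_apply (g : E2 ≃ᵢ E2) (x a : E2) :
    g.toRealAffineIsometryEquiv.linearIsometryEquiv (x - a) = g x - g a := by
  have h := g.toRealAffineIsometryEquiv.map_vsub x a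
  simpa using h

lemma homog_aff (g : E2 ≃ᵢ E2) (x : E2) : homog g (x, 1) = (g x, 1) := by
  rw [homog_apply]
  have h := linear_apply g x 0
  rw [sub_zero] at h
  rw [h, one_smul, sub_add_cancel]

/-- `ext g` is indeed an extension of `g`. -/
lemma ext_aff (g : E2 ≃ᵢ E2) (x : E2) : ext g (aff x) = aff (g x) := by
  have h : homog g (x, 1) = (g x, 1) := homog_aff g x
  show Projectivization.mk ℝ (homog g (x, 1)) _ = Projectivization.mk ℝ (g x, 1) _
  congr 1

/-- The 17 lines of the configuration `C`, as sets of labels of points (the labels are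
`1, ..., 17`). -/
def line : Fin 17 → Finset ℕ :=
  ![{1, 2, 3, 4}, {1, 5, 6, 7}, {1, 8, 9, 10}, {1, 11, 12, 13}, {2, 5, 8, 14}, {2, 6, 9, 15},
    {2, 7, 11, 16}, {3, 5, 12, 15}, {3, 6, 8, 16}, {3, 7, 9, 17}, {4, 5, 11, 17}, {4, 6, 10, 13},
    {4, 7, 12, 14}, {8, 13, 15, 17}, {9, 13, 14, 16}, {10, 11, 14, 15}, {10, 12, 16, 17}]

end Pool.Agent.H37.Cfg17
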