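import Mathlib
import Pool.Agent.H37.Cfg17Defs

set_option autoImplicit false

/-!
The automorphisms of the `(17_4)` configuration, found by a verified search.
-/

namespace Pool.Agent.H37.Cfg17

/-- incidence as a truth value -/
def inc (i k : Fin 17) : Bool := decide ((i : ℕ) + 1 ∈ line k)

/-- collinearity masks -/
def colMask : Fin 17 → ℕ :=
  ![8190, 58877, 117243, 81527, 93423, 54239, 109887, 127799, 127719, 130473, 129627, 128605,
    126889, 57306, 81846, 81894, 57308]

/-- collinearity of two points -/
def col (i j : Fin 17) : Bool := Nat.testBit (colMask i) (j : ℕ)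

lemma col_spec : ∀ i j : Fin 17, i ≠ j →
    (col i j = true ↔ ∃ k, inc i k = true ∧ inc j k = true) := by
  decide +kernel

lemma inc_sep : ∀ i j : Fin 17, (∀ k, inc i k = inc j k) → i = j := by
  decide +kernel

lemma inc_sep' : ∀ k l : Fin 17, (∀ i, inc i k = inc i l) → k = l := by
  decide +kernel

/-- the generator of the automorphism group (indices are labels minus one) -/
def s1 : Fin 17 → Fin 17 := ![0, 4, 6, 5, 2, 3, 1, 11, 10, 12, 7, 8, 9, 14, 16, 13, 15]
/-- its square -/
def s2 : Fin 17 → Fin 17 := ![0, 2, 1, 3, 6, 5, 4, 8, 7, 9, 11, 10, 12, 16, 15, 14, 13]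
/-- its cube -/
def s3 : Fin 17 → Fin 17 := ![0, 6, 4, 5, 1, 3, 2, 10, 11, 12, 8, 7, 9, 15, 13, 16, 14]

/-- consistency of the assignment `x ↦ a` with an earlier assignment -/
def okPair (x a : Fin 17) (q : Fin 17 × Fin 17) : Bool := (a != q.2) && (col a q.2 == col x q.1)

/-- exhaustive search over the assignments of the points in a list -/
def search (fin : List (Fin 17 × Fin 17) → Bool) :
    List (Fin 17) → List (Fin 17 × Fin 17) → Bool
  | [], acc => fin acc
  | x :: xs, acc =>
    (List.finRange 17).all (fun a => !(acc.all (okPair x a)) || search fin xs ((x, a) :: acc))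

/-- the function given by a list of assignments -/
def look (acc : List (Fin 17 × Fin 17)) (i : Fin 17) : Fin 17 :=
  match acc.find? (fun q => q.1 == i) with
  | none => 0
  | some q => q.2

/-- all lines are mapped to lines -/
def linesOk (f : Fin 17 → Fin 17) : Bool :=
  (List.finRange 17).all (fun j => (List.finRange 17).any (fun k =>
    (List.finRange 17).all (fun i => inc i j == inc (f i) k)))

/-- equality of two functions -/
def eqFun (f g : Fin 17 → Fin 17) : Bool := (List.finRange 17).all (fun i => f i == g i)

/-- the check made at the end of a branch -/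
def final (acc : List (Fin 17 × Fin 17)) : Bool :=
  !(linesOk (look acc)) || (eqFun (look acc) id || (eqFun (look acc) s1 ||
    (eqFun (look acc) s2 || eqFun (look acc) s3)))

/-- the order in which points are assigned -/
def order : List (Fin 17) := [16, 0, 13, 5, 1, 11, 14, 15, 3, 8, 4, 7, 10, 9, 6, 12, 2]

lemma search_true : search final order [] = true := by
  decide +kernel

lemma search_sound (fin : List (Fin 17 × Fin 17) → Bool) (π : Fin 17 → Fin 17)
    (hinj : Function.Injective π) (hcol : ∀ i j, i ≠ j → col (π i) (π j) = col i j) :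
    ∀ (xs L : List (Fin 17)), (L ++ xs).Nodup →
      search fin xs (L.map (fun x => (x, π x))) = true →
      fin ((xs.reverse ++ L).map (fun x => (x, π x))) = true := by
  intro xs
  induction xs with
  | nil => intro L _ h; simpa [search] using h
  | cons x xs ih =>
    intro L hnd h
    rw [search, List.all_eq_true] at h
    have h1 := h (π x) (List.mem_finRange _)
    have hall : (L.map (fun x => (x, π x))).all (okPair x (π x)) = true := by
      rw [List.all_eq_true]
      intro q hq
      rw [List.mem_map] at hq
      obtain ⟨y, hy, rfl⟩ := hq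
      have hxy : x ≠ y := by
        rintro rfl
        rw [List.nodup_append] at hnd
        exact hnd.2.2 x hy x (List.mem_cons_self) rfl
      unfold okPair
      simp only [Bool.and_eq_true, bne_iff_ne, ne_eq, beq_iff_eq]
      exact ⟨fun h => hxy (hinj h), hcol x y hxy⟩
    rw [hall] at h1
    simp only [Bool.not_true, Bool.false_or] at h1
    have h2 := ih (x :: L) (by
      have : (L ++ x :: xs).Perm (x :: L ++ xs) := List.perm_middle
      exact this.nodup_iff.1 hnd) (by simpa using h1)
    simpa using h2

lemma look_map (π : Fin 17 → Fin 17) (i : Fin 17) : ∀ L : List (Fin 17), i ∈ L →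
    look (L.map (fun x => (x, π x))) i = π i := by
  intro L hL
  unfold look
  induction L with
  | nil => simp at hL
  | cons x xs ih =>
    rw [List.map_cons, List.find?_cons]
    by_cases hx : x = i
    · subst hx; simp
    · have hx' : ((x, π x).1 == i) = false := by simpa using hx
      rw [hx']
      rcases List.mem_cons.1 hL with h | h
      · exact absurd h.symm hx
      · exact ih h

/-- The automorphism group of the configuration: a bijection of the points that maps lines to lines
and is onto on lines is one of four maps. -/
theorem aut_classification (π : Fin 17 → Fin 17) (hinj : Function.Injective π)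
    (h1 : ∀ j, ∃ k, ∀ i, inc i j = inc (π i) k) (h2 : ∀ k, ∃ j, ∀ i, inc i j = inc (π i) k) :
    π = id ∨ π = s1 ∨ π = s2 ∨ π = s3 := by
  have hcol : ∀ i j, i ≠ j → col (π i) (π j) = col i j := by
    intro i j hij
    have hij' : π i ≠ π j := fun h => hij (hinj h)
    rw [Bool.eq_iff_iff, col_spec _ _ hij', col_spec _ _ hij]
    constructor
    · rintro ⟨k, hk1, hk2⟩
      obtain ⟨j', hj'⟩ := h2 k
      exact ⟨j', by rw [hj' i]; exact hk1, by rw [hj' j]; exact hk2⟩
    · rintro ⟨k, hk1, hk2⟩
      obtain ⟨k', hk'⟩ := h1 k
      exact ⟨k', by rw [← hk' i]; exact hk1, by rw [← hk' j]; exact hk2⟩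
  have h := search_sound final π hinj hcol order [] (by decide) search_true
  have hlook : look ((order.reverse ++ []).map (fun x => (x, π x))) = π := by
    funext i
    refine look_map π i _ ?_
    revert i; decide
  unfold final at h
  rw [hlook] at h
  have hl : linesOk π = true := by
    unfold linesOk
    rw [List.all_eq_true]
    intro j _
    rw [List.any_eq_true]
    obtain ⟨k, hk⟩ := h1 j
    refine ⟨k, List.mem_finRange _, ?_⟩
    rw [List.all_eq_true]
    intro i _
    rw [beq_iff_eq]
    exact hk i
  rw [hl] at h
  have heq : ∀ f g : Fin 17 → Fin 17, eqFun f g = true → f = g := by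
    intro f g hfg
    funext i
    unfold eqFun at hfg
    rw [List.all_eq_true] at hfg
    exact beq_iff_eq.1 (hfg i (List.mem_finRange _))
  simp only [Bool.not_true, Bool.false_or, Bool.or_eq_true] at h
  rcases h with h | h | h | h
  · exact Or.inl (heq _ _ h)
  · exact Or.inr (Or.inl (heq _ _ h))
  · exact Or.inr (Or.inr (Or.inl (heq _ _ h)))
  · exact Or.inr (Or.inr (Or.inr (heq _ _ h)))

end Pool.Agent.H37.Cfg17
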