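import Mathlib
import Pool.Agent.H37.Cfg17Defs

set_option autoImplicit false

/-!
The real projective plane as a topological space, and the extension of isometries.
-/

namespace Pool.Agent.H37.Cfg17

open scoped LinearAlgebra.Projectivization
open Set Function Topology

/-- homogeneous coordinates -/
noncomputable def mkv (v : {v : E2 × ℝ // v ≠ 0}) : RP2 := Projectivization.mk ℝ v.1 v.2

lemma mkv_quotient : IsQuotientMap mkv := isQuotientMap_quotient_mk'

lemma mkv_surj : Surjective mkv := mkv_quotient.surjective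

/-- the points where a linear form does not vanish -/
def nonzeroSet (l : (E2 × ℝ) →ₗ[ℝ] ℝ) : Set RP2 := {P | l P.rep ≠ 0}

lemma rep_mk (v : E2 × ℝ) (hv : v ≠ 0) :
    ∃ a : ℝ, a ≠ 0 ∧ (Projectivization.mk ℝ v hv).rep = a • v := by
  obtain ⟨a, ha⟩ := Projectivization.exists_smul_eq_mk_rep ℝ v hv
  exact ⟨a, a.ne_zero, ha.symm⟩

lemma mem_nonzeroSet (l : (E2 × ℝ) →ₗ[ℝ] ℝ) (v : E2 × ℝ) (hv : v ≠ 0) :
    Projectivization.mk ℝ v hv ∈ nonzeroSet l ↔ l v ≠ 0 := by
  obtain ⟨a, ha, h⟩ := rep_mk v hv
  unfold nonzeroSet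
  rw [mem_ofPred_eq, h, map_smul, smul_eq_mul]
  exact ⟨fun h1 h2 => h1 (by rw [h2, mul_zero]), fun h1 => mul_ne_zero ha h1⟩

lemma isOpen_nonzeroSet (l : (E2 × ℝ) →ₗ[ℝ] ℝ) : IsOpen (nonzeroSet l) := by
  rw [← mkv_quotient.isOpen_preimage]
  have : mkv ⁻¹' nonzeroSet l = {v | l v.1 ≠ 0} := by
    ext v
    exact mem_nonzeroSet l v.1 v.2
  rw [this]
  have hc : Continuous (fun v : {v : E2 × ℝ // v ≠ 0} => l v.1) :=
    (l.continuous_of_finiteDimensional).comp continuous_subtype_val
  exact isOpen_ne_fun hc continuous_const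

/-- the quotient of two linear forms -/
noncomputable def ratio (k l : (E2 × ℝ) →ₗ[ℝ] ℝ) (P : RP2) : ℝ := k P.rep / l P.rep

lemma ratio_mk (k l : (E2 × ℝ) →ₗ[ℝ] ℝ) (v : E2 × ℝ) (hv : v ≠ 0) :
    ratio k l (Projectivization.mk ℝ v hv) = k v / l v := by
  obtain ⟨a, ha, h⟩ := rep_mk v hv
  unfold ratio
  rw [h, map_smul, map_smul, smul_eq_mul, smul_eq_mul]
  exact mul_div_mul_left _ _ ha

lemma continuousOn_ratio (k l : (E2 × ℝ) →ₗ[ℝ] ℝ) : ContinuousOn (ratio k l) (nonzeroSet l) := by
  rw [mkv_quotient.continuousOn_isOpen_iff (isOpen_nonzeroSet l)]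
  have h1 : ∀ v : {v : E2 × ℝ // v ≠ 0}, (ratio k l ∘ mkv) v = k v.1 / l v.1 :=
    fun v => ratio_mk k l v.1 v.2
  have hk : Continuous (fun v : {v : E2 × ℝ // v ≠ 0} => k v.1) :=
    (k.continuous_of_finiteDimensional).comp continuous_subtype_val
  have hl : Continuous (fun v : {v : E2 × ℝ // v ≠ 0} => l v.1) :=
    (l.continuous_of_finiteDimensional).comp continuous_subtype_val
  have h2 : ContinuousOn (fun v : {v : E2 × ℝ // v ≠ 0} => k v.1 / l v.1)
      (mkv ⁻¹' nonzeroSet l) := by
    refine hk.continuousOn.div hl.continuousOn ?_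
    intro v hv
    exact (mem_nonzeroSet l v.1 v.2).1 hv
  exact h2.congr (fun v _ => h1 v)

/-! ### The projective plane is Hausdorff -/

/-- coordinates -/
noncomputable def crd (v : E2 × ℝ) : Fin 3 → ℝ := ![v.1 0, v.1 1, v.2]

lemma crd_smul (a : ℝ) (v : E2 × ℝ) (i : Fin 3) : crd (a • v) i = a * crd v i := by
  fin_cases i <;> simp [crd]

lemma crd_continuous (i : Fin 3) : Continuous (fun v : E2 × ℝ => crd v i) := by
  fin_cases i <;> simp [crd] <;> fun_prop

lemma crd_injective (v w : E2 × ℝ) (h : ∀ i, crd v i = crd w i) : v = w := by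
  obtain ⟨x, t⟩ := v
  obtain ⟨y, s⟩ := w
  have h0 : x 0 = y 0 := h 0
  have h1 : x 1 = y 1 := h 1
  have h2 : t = s := h 2
  have hxy : x = y := by
    ext i
    fin_cases i
    · exact h0
    · exact h1
  rw [hxy, h2]

/-- the square of the norm -/
noncomputable def nsq (v : E2 × ℝ) : ℝ := ∑ i, crd v i * crd v i

lemma nsq_pos (v : E2 × ℝ) (hv : v ≠ 0) : 0 < nsq v := by
  have h0 : 0 ≤ nsq v := Finset.sum_nonneg (fun i _ => mul_self_nonneg _)
  rcases h0.lt_or_eq with h | h
  · exact h
  · exfalso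
    apply hv
    refine crd_injective v 0 ?_
    intro i
    have h1 := (Finset.sum_eq_zero_iff_of_nonneg (fun i _ => mul_self_nonneg (crd v i))).1 h.symm i
      (Finset.mem_univ _)
    have h2 : crd v i = 0 := mul_self_eq_zero.1 h1
    rw [h2]
    fin_cases i <;> simp [crd]

lemma nsq_smul (a : ℝ) (v : E2 × ℝ) : nsq (a • v) = a * a * nsq v := by
  unfold nsq
  rw [Finset.mul_sum]
  refine Finset.sum_congr rfl ?_
  intro i _
  rw [crd_smul]; ring

/-- the matrix of the orthogonal projection to a line -/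
noncomputable def prj (P : RP2) (i j : Fin 3) : ℝ := crd P.rep i * crd P.rep j / nsq P.rep

lemma prj_mk (v : E2 × ℝ) (hv : v ≠ 0) (i j : Fin 3) :
    prj (Projectivization.mk ℝ v hv) i j = crd v i * crd v j / nsq v := by
  obtain ⟨a, ha, h⟩ := rep_mk v hv
  unfold prj
  rw [h, crd_smul, crd_smul, nsq_smul]
  have h1 : a * crd v i * (a * crd v j) = (a * a) * (crd v i * crd v j) := by ring
  rw [h1]
  exact mul_div_mul_left _ _ (mul_ne_zero ha ha)

lemma prj_continuous : Continuous prj := by
  rw [mkv_quotient.continuous_iff]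
  refine continuous_pi (fun i => continuous_pi (fun j => ?_))
  have h1 : (fun v : {v : E2 × ℝ // v ≠ 0} => (prj ∘ mkv) v i j) =
      fun v => crd v.1 i * crd v.1 j / nsq v.1 := by
    funext v; exact prj_mk v.1 v.2 i j
  rw [h1]
  refine Continuous.div ?_ ?_ ?_
  · exact ((crd_continuous i).comp continuous_subtype_val).mul
      ((crd_continuous j).comp continuous_subtype_val)
  · unfold nsq
    exact continuous_finsetSum _ (fun k _ => ((crd_continuous k).comp continuous_subtype_val).mul
      ((crd_continuous k).comp continuous_subtype_val))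
  · intro v; exact (nsq_pos v.1 v.2).ne'

lemma prj_injective : Injective prj := by
  intro P Q h
  obtain ⟨⟨v, hv⟩, rfl⟩ := mkv_surj P
  obtain ⟨⟨w, hw⟩, rfl⟩ := mkv_surj Q
  have h1 : ∀ i j, crd v i * crd v j / nsq v = crd w i * crd w j / nsq w := by
    intro i j
    have := congrFun (congrFun h i) j
    have e1 : prj (mkv ⟨v, hv⟩) i j = crd v i * crd v j / nsq v := prj_mk v hv i j
    have e2 : prj (mkv ⟨w, hw⟩) i j = crd w i * crd w j / nsq w := prj_mk w hw i j
    rw [e1, e2] at this
    exact this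
  have hw0 := nsq_pos w hw
  have h2 : ∀ i, crd w i = ((∑ j, crd v j * crd w j) / nsq v) * crd v i := by
    intro i
    have h3 : ∑ j, (crd v i * crd v j / nsq v) * crd w j =
        ∑ j, (crd w i * crd w j / nsq w) * crd w j :=
      Finset.sum_congr rfl (fun j _ => by rw [h1])
    have h4 : ∑ j, (crd w i * crd w j / nsq w) * crd w j = crd w i := by
      have : ∀ j, (crd w i * crd w j / nsq w) * crd w j = crd w i / nsq w * (crd w j * crd w j) :=
        fun j => by ring
      rw [Finset.sum_congr rfl (fun j _ => this j), ← Finset.mul_sum]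
      show crd w i / nsq w * nsq w = crd w i
      field_simp
    have h5 : ∑ j, (crd v i * crd v j / nsq v) * crd w j =
        ((∑ j, crd v j * crd w j) / nsq v) * crd v i := by
      rw [Finset.sum_div, Finset.sum_mul]
      exact Finset.sum_congr rfl (fun j _ => by ring)
    rw [← h4, ← h3, h5]
  have h6 : w = ((∑ j, crd v j * crd w j) / nsq v) • v := by
    refine crd_injective _ _ ?_
    intro i
    rw [crd_smul]
    exact h2 i
  symm
  show Projectivization.mk ℝ w hw = Projectivization.mk ℝ v hv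
  rw [Projectivization.mk_eq_mk_iff']
  exact ⟨_, h6.symm⟩

instance : T2Space RP2 := T2Space.of_injective_continuous prj_injective prj_continuous

/-! ### The extension of an isometry -/

lemma ext_mk (g : E2 ≃ᵢ E2) (v : E2 × ℝ) (hv : v ≠ 0) : ext g (Projectivization.mk ℝ v hv) =
    Projectivization.mk ℝ (homog g v) (fun h => hv (homog_injective g (by rw [h, map_zero]))) :=
  rfl

lemma ext_continuous (g : E2 ≃ᵢ E2) : Continuous (ext g) := by
  rw [mkv_quotient.continuous_iff]
  have : ext g ∘ mkv = fun v => mkv ⟨homog g v.1, fun h => v.2 (homog_injective g (by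
      rw [h, map_zero]))⟩ := by
    funext v; exact ext_mk g v.1 v.2
  rw [this]
  refine mkv_quotient.continuous.comp ?_
  refine Continuous.subtype_mk ?_ _
  exact ((homog g).continuous_of_finiteDimensional).comp continuous_subtype_val

lemma ext_injective (g : E2 ≃ᵢ E2) : Injective (ext g) :=
  Projectivization.map_injective (homog g) (homog_injective g)

lemma aff_injective : Injective aff := by
  intro x y h
  unfold aff at h
  rw [Projectivization.mk_eq_mk_iff'] at h
  obtain ⟨a, ha⟩ := h
  have h1 : a * 1 = 1 := congrArg Prod.snd ha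
  have h2 : a • y = x := congrArg Prod.fst ha
  rw [mul_one] at h1
  rw [h1, one_smul] at h2
  exact h2.symm

/-- in coordinates centred at `a` -/
lemma homog_centre (g : E2 ≃ᵢ E2) (a u : E2) (t : ℝ) (ha : g a = a) : homog g (u, t) =
    (g.toRealAffineIsometryEquiv.linearIsometryEquiv (u - t • a) + t • a, t) := by
  rw [homog_apply]
  congr 1
  have h := linear_apply g 0 a
  rw [ha, zero_sub, map_neg] at h
  have h0 : g 0 = a - g.toRealAffineIsometryEquiv.linearIsometryEquiv a := by
    rw [← neg_inj]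
    have : -(g 0) = -a + g.toRealAffineIsometryEquiv.linearIsometryEquiv a := by
      have h2 : g.toRealAffineIsometryEquiv.linearIsometryEquiv a = -(g 0 - a) := by
        rw [← h, neg_neg]
      rw [h2]; abel
    rw [this]; abel
  rw [h0, map_sub, map_smul, smul_sub]
  abel

end Pool.Agent.H37.Cfg17
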