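import Mathlib

set_option autoImplicit false

/-!
Two facts on the circle: an involution with three fixed points is the identity, and the circle does
not embed in the real line.
-/

namespace Pool.Agent.H37.CircleLemmas

open Set Function

/-- A continuous involution of the circle with three fixed points is the identity. -/
theorem involution_eq_id (f : UnitAddCircle → UnitAddCircle) (hf : Continuous f)
    (hff : ∀ x, f (f x) = x) (a b c : UnitAddCircle) (hab : b ≠ a) (hac : c ≠ a) (hbc : b ≠ c)
    (fa : f a = a) (fb : f b = b) (fc : f c = c) : ∀ x, f x = x := by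
  obtain ⟨a0, rfl⟩ := QuotientAddGroup.mk_surjective a
  have hinj : Injective f := fun x y h => by rw [← hff x, ← hff y, h]
  let e := AddCircle.openPartialHomeomorphCoe (1 : ℝ) a0
  have hes : e.source = Ioo a0 (a0 + 1) := rfl
  have het : e.target = {(a0 : UnitAddCircle)}ᶜ := rfl
  let F : ℝ → ℝ := fun t => e.symm (f (e t))
  have hmem : ∀ t ∈ Ioo a0 (a0 + 1), f (e t) ∈ e.target := by
    intro t ht
    have h1 : e t ∈ e.target := e.map_source (by rw [hes]; exact ht)
    rw [het, mem_compl_singleton_iff] at h1 ⊢
    intro h2
    apply h1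
    exact hinj (h2.trans fa.symm)
  have hmaps : ∀ t ∈ Ioo a0 (a0 + 1), F t ∈ Ioo a0 (a0 + 1) := by
    intro t ht
    have := e.map_target (hmem t ht)
    rwa [hes] at this
  have heF : ∀ t ∈ Ioo a0 (a0 + 1), e (F t) = f (e t) := fun t ht => e.right_inv (hmem t ht)
  have hFF : ∀ t ∈ Ioo a0 (a0 + 1), F (F t) = t := by
    intro t ht
    show e.symm (f (e (F t))) = t
    rw [heF t ht, hff]
    exact e.left_inv (by rw [hes]; exact ht)
  have hFinj : InjOn F (Ioo a0 (a0 + 1)) := by
    intro t ht s hs h
    rw [← hFF t ht, ← hFF s hs, h]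
  have hFcont : ContinuousOn F (Ioo a0 (a0 + 1)) := by
    have h1 : ContinuousOn (fun t => f (e t)) (Ioo a0 (a0 + 1)) :=
      hf.comp_continuousOn (by have := e.continuousOn; rwa [hes] at this)
    exact e.continuousOn_symm.comp h1 hmem
  have key : ∀ t ∈ Ioo a0 (a0 + 1), F t = t := by
    rcases hFcont.strictMonoOn_of_injOn_Ioo (by linarith) hFinj with hm | hm
    · intro t ht
      rcases lt_trichotomy (F t) t with h | h | h
      · have := hm (hmaps t ht) ht h
        rw [hFF t ht] at this
        exact absurd this (not_lt.2 h.le)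
      · exact h
      · have := hm ht (hmaps t ht) h
        rw [hFF t ht] at this
        exact absurd this (not_lt.2 h.le)
    · exfalso
      have hb : b ∈ e.target := by rw [het, mem_compl_singleton_iff]; exact hab
      have hc : c ∈ e.target := by rw [het, mem_compl_singleton_iff]; exact hac
      have hb1 : e.symm b ∈ Ioo a0 (a0 + 1) := by have := e.map_target hb; rwa [hes] at this
      have hc1 : e.symm c ∈ Ioo a0 (a0 + 1) := by have := e.map_target hc; rwa [hes] at this
      have hb2 : F (e.symm b) = e.symm b := by
        show e.symm (f (e (e.symm b))) = _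
        rw [e.right_inv hb, fb]
      have hc2 : F (e.symm c) = e.symm c := by
        show e.symm (f (e (e.symm c))) = _
        rw [e.right_inv hc, fc]
      have hne : e.symm b ≠ e.symm c := by
        intro h
        apply hbc
        rw [← e.right_inv hb, ← e.right_inv hc, h]
      rcases lt_or_gt_of_ne hne with h | h
      · have := hm hb1 hc1 h
        rw [hb2, hc2] at this
        exact absurd this (not_lt.2 h.le)
      · have := hm hc1 hb1 h
        rw [hb2, hc2] at this
        exact absurd this (not_lt.2 h.le)
  intro x
  by_cases hx : x = (a0 : UnitAddCircle)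
  · rw [hx]; exact fa
  · have hx1 : x ∈ e.target := by rw [het, mem_compl_singleton_iff]; exact hx
    have hx2 : e.symm x ∈ Ioo a0 (a0 + 1) := by have := e.map_target hx1; rwa [hes] at this
    have h1 := heF _ hx2
    rw [key _ hx2, e.right_inv hx1] at h1
    exact h1.symm

/-- There is no injective continuous function from the circle to the real line. -/
theorem not_injective (f : UnitAddCircle → ℝ) (hf : Continuous f) : ¬ Injective f := by
  intro hinj
  let h : UnitAddCircle := ((1 / 2 : ℝ) : UnitAddCircle)
  have hh : h + h = 0 := by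
    show ((1 / 2 : ℝ) : UnitAddCircle) + ((1 / 2 : ℝ) : UnitAddCircle) = 0
    rw [← AddCircle.coe_add]
    have : (1 / 2 : ℝ) + 1 / 2 = 1 := by norm_num
    rw [this]
    exact AddCircle.coe_period 1
  have hne : h ≠ 0 := by
    intro h0
    have h1 := (AddCircle.coe_eq_zero_iff (1 : ℝ)).1 h0
    obtain ⟨n, hn⟩ := h1
    have h2 : (n : ℝ) = 1 / 2 := by simpa using hn
    have h3 : (2 * n : ℤ) = (1 : ℤ) := by
      have : (2 * n : ℝ) = 1 := by rw [h2]; norm_num
      exact_mod_cast this
    omega
  let g : UnitAddCircle → ℝ := fun x => f (x + h) - f x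
  have hg : Continuous g := by
    exact (hf.comp (continuous_id.add continuous_const)).sub hf
  have hg0 : g (0 + h) = - g 0 := by
    show f (0 + h + h) - f (0 + h) = -(f (0 + h) - f 0)
    rw [add_assoc, hh, add_zero]
    ring
  have hex : (0 : ℝ) ∈ range g := by
    rcases le_total (g 0) 0 with h0 | h0
    · exact mem_range_of_exists_le_of_exists_ge hg ⟨0, h0⟩ ⟨0 + h, by rw [hg0]; linarith⟩
    · exact mem_range_of_exists_le_of_exists_ge hg ⟨0 + h, by rw [hg0]; linarith⟩ ⟨0, h0⟩
  obtain ⟨x, hx⟩ := hex
  have h1 : f (x + h) = f x := by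
    have : f (x + h) - f x = 0 := hx
    linarith
  have h2 := hinj h1
  exact hne (by simpa using h2)

end Pool.Agent.H37.CircleLemmas
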