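import Mathlib
import Pool.Agent.H37.Cfg17Defs
import Pool.Agent.H37.Cfg17Comb
import Pool.Agent.H37.Cfg17Plane
import Pool.Agent.H37.CircleLemmas

set_option autoImplicit false

/-!
No realization of the `(17_4)` configuration in the Euclidean plane proper has a symmetry.
-/

namespace Pool.Agent.H37.Cfg17

open scoped LinearAlgebra.Projectivization
open Set Function Topology

/-- inner product with `v` -/
noncomputable def pf (v : E2) : E2 →ₗ[ℝ] ℝ where
  toFun y := v 0 * y 0 + v 1 * y 1
  map_add' x y := by simp; ring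
  map_smul' c y := by simp; ring

/-- determinant with `v` -/
noncomputable def qf (v : E2) : E2 →ₗ[ℝ] ℝ where
  toFun y := v 0 * y 1 - v 1 * y 0
  map_add' x y := by simp; ring
  map_smul' c y := by simp; ring

lemma pf_apply (v y : E2) : pf v y = v 0 * y 0 + v 1 * y 1 := rfl
lemma qf_apply (v y : E2) : qf v y = v 0 * y 1 - v 1 * y 0 := rfl

lemma inner_eq (x y : E2) : inner ℝ x y = x 0 * y 0 + x 1 * y 1 := by
  rw [PiLp.inner_apply, Fin.sum_univ_two]
  simp [mul_comm]

lemma E2_ext (x y : E2) (h0 : x 0 = y 0) (h1 : x 1 = y 1) : x = y := by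
  ext i
  fin_cases i
  · exact h0
  · exact h1

lemma n_pos (v : E2) (hv : v ≠ 0) : 0 < v 0 * v 0 + v 1 * v 1 := by
  have h0 : 0 ≤ v 0 * v 0 := mul_self_nonneg _
  have h1 : 0 ≤ v 1 * v 1 := mul_self_nonneg _
  rcases (add_nonneg h0 h1).lt_or_eq with h | h
  · exact h
  · exfalso
    apply hv
    refine E2_ext _ _ ?_ ?_
    · have : v 0 * v 0 = 0 := by linarith
      simpa using this
    · have : v 1 * v 1 = 0 := by linarith
      simpa using this

lemma pq_injective (v : E2) (hv : v ≠ 0) (x y : E2) (hp : pf v x = pf v y)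
    (hq : qf v x = qf v y) : x = y := by
  have hn := n_pos v hv
  rw [pf_apply, pf_apply] at hp
  rw [qf_apply, qf_apply] at hq
  refine E2_ext _ _ ?_ ?_
  · have : (v 0 * v 0 + v 1 * v 1) * (x 0 - y 0) = 0 := by
      linear_combination v 0 * hp - v 1 * hq
    rcases mul_eq_zero.1 this with h | h
    · exact absurd h hn.ne'
    · linarith
  · have : (v 0 * v 0 + v 1 * v 1) * (x 1 - y 1) = 0 := by
      linear_combination v 1 * hp + v 0 * hq
    rcases mul_eq_zero.1 this with h | h
    · exact absurd h hn.ne'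
    · linarith

/-- An isometry of the plane other than the identity with two fixed points is a reflection: its
linear part fixes `v` and reverses the determinant with `v`. -/
lemma reflection (g : E2 ≃ᵢ E2) (hg : g ≠ IsometryEquiv.refl E2) (a b : E2) (ha : g a = a)
    (hb : g b = b) (hab : b - a ≠ 0) (y : E2) :
    pf (b - a) (g.toRealAffineIsometryEquiv.linearIsometryEquiv y) = pf (b - a) y ∧
    qf (b - a) (g.toRealAffineIsometryEquiv.linearIsometryEquiv y) = - qf (b - a) y := by
  have hLv' := linear_apply g b a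
  have hlin := linear_apply g
  generalize g.toRealAffineIsometryEquiv.linearIsometryEquiv = L at *
  rw [ha, hb] at hLv'
  generalize hv : b - a = v at *
  have hn := n_pos v hab
  have hinner : ∀ x z : E2, (L x) 0 * (L z) 0 + (L x) 1 * (L z) 1 = x 0 * z 0 + x 1 * z 1 := by
    intro x z
    rw [← inner_eq, ← inner_eq]
    exact L.inner_map_map x z
  have hp : ∀ y, pf v (L y) = pf v y := by
    intro y
    rw [pf_apply, pf_apply]
    have := hinner v y
    rw [hLv'] at this
    exact this
  have hsq : ∀ y : E2, qf v y * qf v y =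
      (v 0 * v 0 + v 1 * v 1) * (y 0 * y 0 + y 1 * y 1) - pf v y * pf v y := by
    intro y; rw [qf_apply, pf_apply]; ring
  -- the vector orthogonal to `v`
  obtain ⟨w, hw0, hw1⟩ : ∃ w : E2, w 0 = - v 1 ∧ w 1 = v 0 :=
    ⟨!₂[- v 1, v 0], by simp, by simp⟩
  have hqw : qf v w = v 0 * v 0 + v 1 * v 1 := by rw [qf_apply, hw0, hw1]; ring
  have hpw : pf v w = 0 := by rw [pf_apply, hw0, hw1]; ring
  have hdec : ∀ y : E2, (v 0 * v 0 + v 1 * v 1) • y = pf v y • v + qf v y • w := by
    intro y
    refine E2_ext _ _ ?_ ?_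
    · simp only [PiLp.smul_apply, PiLp.add_apply, smul_eq_mul, hw0, pf_apply, qf_apply]; ring
    · simp only [PiLp.smul_apply, PiLp.add_apply, smul_eq_mul, hw1, pf_apply, qf_apply]; ring
  have hqv : qf v v = 0 := by rw [qf_apply]; ring
  have hq1 : ∀ y, (v 0 * v 0 + v 1 * v 1) * qf v (L y) = qf v y * qf v (L w) := by
    intro y
    have h1 : L ((v 0 * v 0 + v 1 * v 1) • y) = L (pf v y • v + qf v y • w) := by rw [hdec y]
    rw [map_add, map_smul, map_smul, map_smul, hLv'] at h1
    have h2 := congrArg (qf v) h1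
    rw [map_add, map_smul, map_smul, map_smul, hqv] at h2
    simpa using h2
  have hq2 : qf v (L w) * qf v (L w) =
      (v 0 * v 0 + v 1 * v 1) * (v 0 * v 0 + v 1 * v 1) := by
    rw [hsq, hp, hpw, hinner, hw0, hw1]; ring
  refine ⟨hp y, ?_⟩
  rcases mul_self_eq_mul_self_iff.1 hq2 with h | h
  · exfalso
    apply hg
    ext1 x
    have hL : ∀ y, L y = y := by
      intro y
      refine pq_injective v hab _ _ (hp y) ?_
      have := hq1 y
      rw [h, mul_comm (qf v y)] at this
      exact mul_left_cancel₀ hn.ne' this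
    have := hlin x a
    rw [hL, ha] at this
    have h2 : g x = x := by
      have h3 : g x = (x - a) + a := by rw [this]; abel
      rw [h3]; abel
    exact h2
  · have := hq1 y
    rw [h] at this
    have h2 : (v 0 * v 0 + v 1 * v 1) * qf v (L y) =
        (v 0 * v 0 + v 1 * v 1) * (- qf v y) := by rw [this]; ring
    exact mul_left_cancel₀ hn.ne' h2

/-- the vector `u - t a` -/
noncomputable def cen (a : E2) : (E2 × ℝ) →ₗ[ℝ] E2 :=
  LinearMap.fst ℝ E2 ℝ - (LinearMap.toSpanSingleton ℝ E2 a) ∘ₗ LinearMap.snd ℝ E2 ℝ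

lemma cen_apply (a u : E2) (t : ℝ) : cen a (u, t) = u - t • a := rfl

/-- A curve which is invariant under a reflection and contains three fixed points contains every
finite fixed point different from one of the three. -/
lemma fixed_point_mem (g : E2 ≃ᵢ E2) (hg : g ≠ IsometryEquiv.refl E2) (a b : E2) (ha : g a = a)
    (hb : g b = b) (hab : b ≠ a) (γ : C(UnitAddCircle, RP2)) (hγ : Injective γ)
    (hinv : ext g '' range γ = range γ) (hbm : aff b ∈ range γ) (P Q : RP2) (hP : P ∈ range γ)
    (hQ : Q ∈ range γ) (hPf : ext g P = P) (hQf : ext g Q = Q) (hPb : P ≠ aff b)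
    (hQb : Q ≠ aff b) (hPQ : P ≠ Q) : aff a ∈ range γ := by
  have hv : b - a ≠ 0 := sub_ne_zero.2 hab
  have href := reflection g hg a b ha hb hv
  have hcen := fun u t => homog_centre g a u t ha
  generalize hL : g.toRealAffineIsometryEquiv.linearIsometryEquiv = L at href hcen
  -- the extension is an involution
  have hinvol : ∀ X, ext g (ext g X) = X := by
    intro X
    obtain ⟨⟨⟨u, t⟩, hut⟩, rfl⟩ := mkv_surj X
    show ext g (ext g (Projectivization.mk ℝ (u, t) hut)) = Projectivization.mk ℝ (u, t) hut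
    rw [ext_mk, ext_mk]
    congr 1
    rw [hcen, hcen, add_sub_cancel_right]
    have : L (L (u - t • a)) = u - t • a := by
      refine pq_injective (b - a) hv _ _ ?_ ?_
      · rw [(href _).1, (href _).1]
      · rw [(href _).2, (href _).2, neg_neg]
    rw [this, sub_add_cancel]
  -- fixed points
  have hfix : ∀ (u : E2) (t : ℝ) (hut : (u, t) ≠ (0 : E2 × ℝ)),
      ext g (Projectivization.mk ℝ (u, t) hut) = Projectivization.mk ℝ (u, t) hut →
      qf (b - a) (cen a (u, t)) = 0 ∨ (pf (b - a) (cen a (u, t)) = 0 ∧ t = 0) := by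
    intro u t hut h
    rw [ext_mk, Projectivization.mk_eq_mk_iff'] at h
    obtain ⟨c, hc⟩ := h
    rw [hcen] at hc
    have h1 : c * t = t := congrArg Prod.snd hc
    have h2 : c • u = L (u - t • a) + t • a := congrArg Prod.fst hc
    have h3 : L (u - t • a) = c • (u - t • a) := by
      rw [smul_sub, h2, smul_smul, h1]; abel
    rw [cen_apply]
    have h4 := (href (u - t • a)).1
    have h5 := (href (u - t • a)).2
    rw [h3, map_smul, smul_eq_mul] at h4 h5
    by_cases hq : qf (b - a) (u - t • a) = 0
    · exact Or.inl hq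
    · right
      have hc1 : c = -1 := by
        have : (c + 1) * qf (b - a) (u - t • a) = 0 := by linarith
        rcases mul_eq_zero.1 this with h | h
        · linarith
        · exact absurd h hq
      rw [hc1] at h4 h1
      exact ⟨by linarith, by linarith⟩
  -- the induced involution of the circle
  have hmem : ∀ s, ∃ s', γ s' = ext g (γ s) := by
    intro s
    have : ext g (γ s) ∈ ext g '' range γ := ⟨γ s, ⟨s, rfl⟩, rfl⟩
    rw [hinv] at this
    exact this
  choose f hf using hmem
  have hemb : IsEmbedding γ := (γ.continuous.isClosedEmbedding hγ).isEmbedding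
  have hfc : Continuous f := by
    rw [hemb.continuous_iff]
    have : γ ∘ f = ext g ∘ γ := by funext s; exact hf s
    rw [this]
    exact (ext_continuous g).comp γ.continuous
  have hff : ∀ s, f (f s) = s := by
    intro s
    apply hγ
    rw [hf, hf, hinvol]
  obtain ⟨sb, hsb⟩ := hbm
  obtain ⟨sP, rfl⟩ := hP
  obtain ⟨sQ, rfl⟩ := hQ
  have hid : ∀ s, f s = s := by
    refine CircleLemmas.involution_eq_id f hfc hff sb sP sQ ?_ ?_ ?_ ?_ ?_ ?_
    · rintro rfl; exact hPb hsb
    · rintro rfl; exact hQb hsb
    · rintro rfl; exact hPQ rfl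
    · apply hγ; rw [hf, hsb, ext_aff, hb]
    · apply hγ; rw [hf, hPf]
    · apply hγ; rw [hf, hQf]
  have hfixall : ∀ s, ext g (γ s) = γ s := by
    intro s
    rw [← hf, hid]
  -- suppose that the point is not on the curve
  by_contra hna
  let α : (E2 × ℝ) →ₗ[ℝ] ℝ := pf (b - a) ∘ₗ cen a
  let β : (E2 × ℝ) →ₗ[ℝ] ℝ := qf (b - a) ∘ₗ cen a
  let τ : (E2 × ℝ) →ₗ[ℝ] ℝ := LinearMap.snd ℝ E2 ℝ
  have hsub : range γ ⊆ nonzeroSet α := by
    have hpre : IsPreconnected (range γ) := isPreconnected_range γ.continuous
    have hcover : range γ ⊆ nonzeroSet α ∪ nonzeroSet β := by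
      rintro X ⟨s, rfl⟩
      have hne : γ s ≠ aff a := fun h => hna ⟨s, h⟩
      obtain ⟨⟨⟨u, t⟩, hut⟩, hX⟩ := mkv_surj (γ s)
      have hX' : γ s = Projectivization.mk ℝ (u, t) hut := hX.symm
      rw [hX'] at hne ⊢
      by_contra hno
      rw [mem_union, not_or, mem_nonzeroSet, mem_nonzeroSet, not_not, not_not] at hno
      have hy : cen a (u, t) = 0 := by
        refine pq_injective (b - a) hv _ _ ?_ ?_
        · rw [map_zero]; exact hno.1
        · rw [map_zero]; exact hno.2
      rw [cen_apply, sub_eq_zero] at hy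
      apply hne
      unfold aff
      rw [Projectivization.mk_eq_mk_iff']
      refine ⟨t, ?_⟩
      rw [hy]
      simp
    have hdisj : range γ ∩ (nonzeroSet α ∩ nonzeroSet β) = ∅ := by
      rw [eq_empty_iff_forall_notMem]
      rintro X ⟨⟨s, rfl⟩, hXα, hXβ⟩
      obtain ⟨⟨⟨u, t⟩, hut⟩, hX⟩ := mkv_surj (γ s)
      have hX' : γ s = Projectivization.mk ℝ (u, t) hut := hX.symm
      have h1 := hfixall s
      rw [hX'] at h1 hXα hXβ
      rw [mem_nonzeroSet] at hXα hXβ
      rcases hfix u t hut h1 with h | h
      · exact hXβ h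
      · exact hXα h.1
    have hmeet : (range γ ∩ nonzeroSet α).Nonempty := by
      refine ⟨aff b, ⟨sb, hsb⟩, ?_⟩
      unfold aff
      rw [mem_nonzeroSet]
      show pf (b - a) (cen a (b, 1)) ≠ 0
      rw [cen_apply, one_smul, pf_apply]
      exact (n_pos _ hv).ne'
    by_contra hns
    have hmeet2 : (range γ ∩ nonzeroSet β).Nonempty := by
      rw [not_subset] at hns
      obtain ⟨X, hX1, hX2⟩ := hns
      rcases hcover hX1 with h | h
      · exact absurd h hX2
      · exact ⟨X, hX1, h⟩
    have := hpre (nonzeroSet α) (nonzeroSet β) (isOpen_nonzeroSet α) (isOpen_nonzeroSet β) hcover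
      hmeet hmeet2
    rw [hdisj] at this
    exact this.ne_empty rfl
  have hψc : Continuous (fun s => ratio τ α (γ s)) := by
    have h1 := continuousOn_ratio τ α
    exact h1.comp_continuous γ.continuous (fun s => hsub ⟨s, rfl⟩)
  refine CircleLemmas.not_injective _ hψc ?_
  intro s s' hss
  apply hγ
  obtain ⟨⟨⟨u, t⟩, hut⟩, hX⟩ := mkv_surj (γ s)
  obtain ⟨⟨⟨u', t'⟩, hut'⟩, hX'⟩ := mkv_surj (γ s')
  have e1 : γ s = Projectivization.mk ℝ (u, t) hut := hX.symm
  have e2 : γ s' = Projectivization.mk ℝ (u', t') hut' := hX'.symm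
  have h1 := hfixall s
  have h2 := hfixall s'
  have m1 : γ s ∈ nonzeroSet α := hsub ⟨s, rfl⟩
  have m2 : γ s' ∈ nonzeroSet α := hsub ⟨s', rfl⟩
  simp only at hss
  rw [e1] at h1 m1 hss
  rw [e2] at h2 m2 hss
  rw [mem_nonzeroSet] at m1 m2
  rw [ratio_mk, ratio_mk] at hss
  have q1 : qf (b - a) (cen a (u, t)) = 0 := by
    rcases hfix u t hut h1 with h | h
    · exact h
    · exact absurd h.1 m1
  have q2 : qf (b - a) (cen a (u', t')) = 0 := by
    rcases hfix u' t' hut' h2 with h | h
    · exact h
    · exact absurd h.1 m2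
  have m1' : pf (b - a) (cen a (u, t)) ≠ 0 := m1
  have m2' : pf (b - a) (cen a (u', t')) ≠ 0 := m2
  have hss' : t / pf (b - a) (cen a (u, t)) = t' / pf (b - a) (cen a (u', t')) := hss
  rw [e1, e2, Projectivization.mk_eq_mk_iff']
  refine ⟨pf (b - a) (cen a (u, t)) / pf (b - a) (cen a (u', t')), ?_⟩
  generalize hA : pf (b - a) (cen a (u, t)) = A at *
  generalize hB : pf (b - a) (cen a (u', t')) = B at *
  have ht : A / B * t' = t := by
    have : t / A * A = t' / B * A := by rw [hss']
    rw [div_mul_cancel₀ _ m1'] at this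
    rw [this]; ring
  have hy : (A / B) • cen a (u', t') = cen a (u, t) := by
    refine pq_injective (b - a) hv _ _ ?_ ?_
    · rw [map_smul, hB, hA, smul_eq_mul, div_mul_cancel₀ _ m2']
    · rw [map_smul, q1, q2, smul_zero]
  rw [cen_apply, cen_apply, smul_sub, smul_smul, ht] at hy
  have hu : (A / B) • u' = u := sub_left_injective hy
  show ((A / B) • u', A / B * t') = (u, t)
  rw [hu, ht]

/-- A symmetric realization in the Euclidean plane proper does not exist. -/
theorem no_symmetry (point : Fin 17 → RP2) (curve : Fin 17 → Set RP2)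
    (hps : ∀ j, ∃ γ : C(UnitAddCircle, RP2), Injective γ ∧ range γ = curve j)
    (hincid : ∀ i j, point i ∈ curve j ↔ (i : ℕ) + 1 ∈ line j)
    (hx : ∀ i, ∃ x : E2, aff x = point i) (g : E2 ≃ᵢ E2) (hg : g ≠ IsometryEquiv.refl E2)
    (hpts : ext g '' range point = range point)
    (hcur : (fun P => ext g '' P) '' range curve = range curve) : False := by
  choose x hx using hx
  have hinc : ∀ i j, point i ∈ curve j ↔ inc i j = true := by
    intro i j
    rw [hincid]
    unfold inc
    rw [decide_eq_true_iff]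
  have hptinj : Injective point := by
    intro i j h
    refine inc_sep i j ?_
    intro k
    rw [Bool.eq_iff_iff, ← hinc, ← hinc, h]
  -- the induced permutations
  have hπ : ∀ i, ∃ i', point i' = ext g (point i) := by
    intro i
    have : ext g (point i) ∈ ext g '' range point := ⟨_, ⟨i, rfl⟩, rfl⟩
    rw [hpts] at this
    exact this
  choose π hπ using hπ
  have hπinj : Injective π := by
    intro i j h
    apply hptinj
    apply ext_injective g
    rw [← hπ, ← hπ, h]
  have hiff : ∀ j k, ext g '' curve j = curve k → ∀ i, inc i j = inc (π i) k := by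
    intro j k h i
    rw [Bool.eq_iff_iff, ← hinc, ← hinc, hπ, ← h]
    exact ((ext_injective g).mem_set_image).symm
  have h1 : ∀ j, ∃ k, ext g '' curve j = curve k := by
    intro j
    have : ext g '' curve j ∈ (fun P => ext g '' P) '' range curve := ⟨_, ⟨j, rfl⟩, rfl⟩
    rw [hcur] at this
    obtain ⟨k, hk⟩ := this
    exact ⟨k, hk.symm⟩
  have h2 : ∀ k, ∃ j, ext g '' curve j = curve k := by
    intro k
    have : curve k ∈ (fun P => ext g '' P) '' range curve := by
      rw [hcur]; exact ⟨k, rfl⟩
    obtain ⟨P, ⟨j, rfl⟩, hj⟩ := this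
    exact ⟨j, hj⟩
  have hclass := aut_classification π hπinj
    (fun j => (h1 j).imp (fun k hk => hiff j k hk)) (fun k => (h2 k).imp (fun j hj => hiff j k hj))
  -- the image of the line `{4, 6, 10, 13}` (index 11)
  have hline : ∀ (ρ : Fin 17 → Fin 17), (∀ i, inc i 11 = inc (ρ i) 11) →
      ρ = π → ext g '' curve 11 = curve 11 := by
    intro ρ hρ hρπ
    obtain ⟨k, hk⟩ := h1 11
    have h3 := hiff 11 k hk
    have h4 : (11 : Fin 17) = k := by
      refine inc_sep' 11 k ?_
      intro i
      have hsurj : Surjective π := Finite.surjective_of_injective hπinj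
      obtain ⟨i', rfl⟩ := hsurj i
      rw [← h3, hρ i', hρπ]
    rw [hk, ← h4]
  -- it suffices to find an isometry with enough fixed points
  suffices H : ∃ h : E2 ≃ᵢ E2, h ≠ IsometryEquiv.refl E2 ∧
      (∀ i : Fin 17, i = 0 ∨ i = 3 ∨ i = 5 ∨ i = 9 → h (x i) = x i) ∧
      ext h '' curve 11 = curve 11 by
    obtain ⟨h, hh, hfx, hc⟩ := H
    obtain ⟨γ, hγinj, hγ⟩ := hps 11
    have hxinj : Injective x := by
      intro i j hij
      apply hptinj
      rw [← hx, ← hx, hij]
    have hfp : ∀ i : Fin 17, i = 0 ∨ i = 3 ∨ i = 5 ∨ i = 9 →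
        ext h (point i) = point i := by
      intro i hi
      rw [← hx, ext_aff, hfx i hi]
    have hon : ∀ i : Fin 17, inc i 11 = true → point i ∈ range γ := by
      intro i hi
      rw [hγ]
      exact (hinc i 11).2 hi
    have key := fixed_point_mem h hh (x 0) (x 3) (hfx 0 (by decide)) (hfx 3 (by decide))
      (fun h => absurd (hxinj h) (by decide)) γ hγinj (by rw [hγ]; exact hc)
      (by rw [hx]; exact hon 3 (by decide)) (point 5) (point 9) (hon 5 (by decide))
      (hon 9 (by decide)) (hfp 5 (by decide)) (hfp 9 (by decide))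
      (by rw [hx]; exact fun h => absurd (hptinj h) (by decide))
      (by rw [hx]; exact fun h => absurd (hptinj h) (by decide))
      (fun h => absurd (hptinj h) (by decide))
    rw [hx, hγ, hinc] at key
    exact absurd key (by decide)
  have hgx : ∀ i, g (x i) = x (π i) := by
    intro i
    apply aff_injective
    rw [← ext_aff, hx, hx, hπ]
  have hsquare : (∀ i, inc i 11 = inc (π i) 11) → (∀ i, π (π i) = s2 i) →
      ∃ h : E2 ≃ᵢ E2, h ≠ IsometryEquiv.refl E2 ∧
      (∀ i : Fin 17, i = 0 ∨ i = 3 ∨ i = 5 ∨ i = 9 → h (x i) = x i) ∧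
      ext h '' curve 11 = curve 11 := by
    intro hi hππ
    have hgg : ∀ i, (g.trans g) (x i) = x (s2 i) := by
      intro i
      show g (g (x i)) = _
      rw [hgx, hgx, hππ]
    refine ⟨g.trans g, ?_, ?_, ?_⟩
    · intro hrefl
      have h3 := hgg 1
      rw [hrefl] at h3
      have h4 : x 1 = x (s2 1) := h3
      have h5 : point 1 = point (s2 1) := by rw [← hx, ← hx, h4]
      exact absurd (hptinj h5) (by decide)
    · intro i hi
      rw [hgg]
      congr 1
      rcases hi with rfl | rfl | rfl | rfl <;> decide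
    · have h3 := hline π hi rfl
      have h4 : ext (g.trans g) = ext g ∘ ext g := by
        funext X
        obtain ⟨⟨⟨u, t⟩, hut⟩, rfl⟩ := mkv_surj X
        show ext (g.trans g) (Projectivization.mk ℝ (u, t) hut) =
          ext g (ext g (Projectivization.mk ℝ (u, t) hut))
        rw [ext_mk, ext_mk, ext_mk]
        congr 1
        have hlin : ∀ y, (g.trans g).toRealAffineIsometryEquiv.linearIsometryEquiv y =
            g.toRealAffineIsometryEquiv.linearIsometryEquiv
              (g.toRealAffineIsometryEquiv.linearIsometryEquiv y) := by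
          intro y
          have e1 := linear_apply (g.trans g) y 0
          have e2 := linear_apply g y 0
          have e3 := linear_apply g (g y) (g 0)
          rw [sub_zero] at e1 e2
          rw [e1, e2, e3]
          rfl
        have hg0 : (g.trans g) 0 = g.toRealAffineIsometryEquiv.linearIsometryEquiv (g 0) + g 0 := by
          have e3 := linear_apply g (g 0) 0
          rw [sub_zero] at e3
          rw [e3, sub_add_cancel]
          rfl
        rw [homog_apply, homog_apply, homog_apply, hlin, hg0, map_add, map_smul, smul_add]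
        rw [add_assoc]
      rw [h4, image_comp, h3, h3]
  rcases hclass with h | h | h | h
  · refine ⟨g, hg, ?_, ?_⟩
    · intro i _
      rw [hgx, h]; rfl
    · exact hline id (fun i => rfl) h.symm
  · exact hsquare (by rw [h]; decide) (by rw [h]; decide)
  · refine ⟨g, hg, ?_, ?_⟩
    · intro i hi
      rw [hgx, h]
      congr 1
      rcases hi with rfl | rfl | rfl | rfl <;> decide
    · exact hline s2 (by decide) h.symm
  · exact hsquare (by rw [h]; decide) (by rw [h]; decide)

end Pool.Agent.H37.Cfg17
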