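import Mathlib

set_option autoImplicit false

/-!
Definitions for topological realizations of the `(17_4)` configuration `C` and their symmetries.
-/

namespace Pool.Agent.H37.Cfg17Model

/-- The Euclidean plane. -/
abbrev Plane : Type := EuclideanSpace ℝ (Fin 2)

/-- Proportionality of nonzero vectors of `ℝ³`. -/
def proportional : Setoid {v : ℝ × ℝ × ℝ // v ≠ 0} where
  r v w := ∃ c : ℝ, v.1 = c • w.1
  iseqv :=
    { refl := fun v => ⟨1, (one_smul ℝ v.1).symm⟩
      symm := by
        rintro v w ⟨c, hc⟩
        have h0 : c ≠ 0 := by
          rintro rfl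
          exact v.2 (by rw [hc, zero_smul])
        exact ⟨c⁻¹, by rw [hc, smul_smul, inv_mul_cancel₀ h0, one_smul]⟩
      trans := by
        rintro u v w ⟨c, hc⟩ ⟨d, hd⟩
        exact ⟨c * d, by rw [hc, hd, smul_smul]⟩ }

/-- The real projective plane, with the quotient topology. -/
abbrev ProjPlane : Type := Quotient proportional

/-- The inclusion `x ↦ [x₀ : x₁ : 1]` of the Euclidean plane into the projective plane. -/
noncomputable def incl (x : Plane) : ProjPlane :=
  Quotient.mk proportional ⟨(x 0, x 1, 1), fun h => one_ne_zero (congrArg (fun v => v.2.2) h)⟩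

/-- The line at infinity: the points of the projective plane outside the Euclidean plane. -/
def lineAtInfinity : Set ProjPlane := (Set.range incl)ᶜ

/-- A pseudoline of the projective plane: a simple closed curve (the image of an injective
continuous map of the circle `ℝ/ℤ`) that is not contractible. -/
def IsPseudoline (P : Set ProjPlane) : Prop :=
  ∃ γ : C(UnitAddCircle, ProjPlane), Function.Injective γ ∧ ¬ γ.Nullhomotopic ∧ Set.range γ = P

/-- The 17 lines of the configuration `C`, as sets of labels of points (the labels are
`1, ..., 17`). -/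
def line : Fin 17 → Finset ℕ :=
  ![{1, 2, 3, 4}, {1, 5, 6, 7}, {1, 8, 9, 10}, {1, 11, 12, 13}, {2, 5, 8, 14}, {2, 6, 9, 15},
    {2, 7, 11, 16}, {3, 5, 12, 15}, {3, 6, 8, 16}, {3, 7, 9, 17}, {4, 5, 11, 17}, {4, 6, 10, 13},
    {4, 7, 12, 14}, {8, 13, 15, 17}, {9, 13, 14, 16}, {10, 11, 14, 15}, {10, 12, 16, 17}]

/-- A topological realization of `C`: 17 points (the point with index `i` has label `i + 1`) and 17
pseudolines of the projective plane, any two of the pseudolines having exactly one common point,
such that a point lies on a pseudoline if and only if the corresponding point lies on the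
corresponding line. -/
def IsRealization (point : Fin 17 → ProjPlane) (curve : Fin 17 → Set ProjPlane) : Prop :=
  (∀ j, IsPseudoline (curve j)) ∧ (∀ j k, j ≠ k → ∃! x, x ∈ curve j ∩ curve k) ∧
    ∀ i j, point i ∈ curve j ↔ (i : ℕ) + 1 ∈ line j

/-- The realization lies in the Euclidean plane proper. -/
def InEuclideanPlane (point : Fin 17 → ProjPlane) (curve : Fin 17 → Set ProjPlane) : Prop :=
  (∀ i, point i ∉ lineAtInfinity) ∧ ∀ j, curve j ≠ lineAtInfinity

/-- The isometry `g` of the Euclidean plane is a symmetry of the realization: it is not the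
identity, and its continuous extension `G` to the projective plane maps the set of points onto
itself and the set of pseudolines onto itself. -/
def IsSymmetry (point : Fin 17 → ProjPlane) (curve : Fin 17 → Set ProjPlane)
    (g : Plane ≃ᵢ Plane) : Prop :=
  g ≠ IsometryEquiv.refl Plane ∧ ∃ G : ProjPlane → ProjPlane, Continuous G ∧
    (∀ x, G (incl x) = incl (g x)) ∧ G '' Set.range point = Set.range point ∧
    (fun P => G '' P) '' Set.range curve = Set.range curve

end Pool.Agent.H37.Cfg17Model
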