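import Mathlib
import Pool.Agent.H37.Cfg17Defs
import Pool.Agent.H37.Cfg17Plane
import Pool.Agent.H37.Cfg17Main
import Pool.Agent.H37.Cfg17Model

set_option autoImplicit false

/-!
Transfer of the main theorem to the elementary model of the projective plane.
-/

namespace Pool.Agent.H37.Cfg17Model

open scoped LinearAlgebra.Projectivization
open Set Function Topology

/-- change of coordinates -/
noncomputable def vec (v : ℝ × ℝ × ℝ) : Cfg17.E2 × ℝ := (!₂[v.1, v.2.1], v.2.2)

lemma vec_smul (c : ℝ) (v : ℝ × ℝ × ℝ) : vec (c • v) = c • vec v := by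
  refine Cfg17.crd_injective _ _ ?_
  intro i
  fin_cases i <;> simp [vec, Cfg17.crd]

lemma vec_injective : Injective vec := by
  rintro ⟨x, y, t⟩ ⟨x', y', t'⟩ h
  have h0 := congrArg (fun v => Cfg17.crd v 0) h
  have h1 := congrArg (fun v => Cfg17.crd v 1) h
  have h2 := congrArg (fun v => Cfg17.crd v 2) h
  simp [vec, Cfg17.crd] at h0 h1 h2
  rw [h0, h1, h2]

lemma vec_zero : vec 0 = 0 := by
  have := vec_smul 0 0
  simpa using this

lemma vec_ne (v : {v : ℝ × ℝ × ℝ // v ≠ 0}) : vec v.1 ≠ 0 := by
  intro h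
  exact v.2 (vec_injective (h.trans vec_zero.symm))

lemma vec_continuous : Continuous vec := by
  unfold vec
  fun_prop

/-- comparison of the two models -/
noncomputable def comp : ProjPlane → Cfg17.RP2 :=
  Quotient.lift (fun v => Cfg17.mkv ⟨vec v.1, vec_ne v⟩) (by
    rintro v w ⟨c, hc⟩
    show Projectivization.mk ℝ _ _ = Projectivization.mk ℝ _ _
    rw [Projectivization.mk_eq_mk_iff']
    refine ⟨c, ?_⟩
    show c • vec w.1 = vec v.1
    rw [← vec_smul, ← hc])

lemma comp_mk (v : {v : ℝ × ℝ × ℝ // v ≠ 0}) :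
    comp (Quotient.mk proportional v) = Cfg17.mkv ⟨vec v.1, vec_ne v⟩ := rfl

lemma comp_continuous : Continuous comp := by
  refine Continuous.quotient_lift ?_ _
  refine Cfg17.mkv_quotient.continuous.comp ?_
  exact Continuous.subtype_mk (vec_continuous.comp continuous_subtype_val) _

lemma comp_injective : Injective comp := by
  intro P Q h
  obtain ⟨v, rfl⟩ := Quotient.exists_rep P
  obtain ⟨w, rfl⟩ := Quotient.exists_rep Q
  have h' : Projectivization.mk ℝ (vec v.1) (vec_ne v) =
      Projectivization.mk ℝ (vec w.1) (vec_ne w) := h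
  rw [Projectivization.mk_eq_mk_iff'] at h'
  obtain ⟨a, ha⟩ := h'
  refine Quotient.sound ⟨a, ?_⟩
  apply vec_injective
  rw [vec_smul, ha]

lemma comp_incl (x : Plane) : comp (incl x) = Cfg17.aff x := by
  show Projectivization.mk ℝ (vec (x 0, x 1, 1)) _ = Projectivization.mk ℝ (x, 1) _
  congr 1
  refine Cfg17.crd_injective _ _ ?_
  intro i
  fin_cases i <;> simp [vec, Cfg17.crd]

lemma dense_incl : DenseRange incl := by
  intro P
  obtain ⟨⟨⟨x, y, t⟩, hv⟩, rfl⟩ := Quotient.exists_rep P
  by_cases ht : t = 0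
  · have hne : ∀ s : ℝ, (x, y, s) ≠ (0 : ℝ × ℝ × ℝ) := by
      intro s hs
      apply hv
      have h1 : x = 0 := congrArg (fun v => v.1) hs
      have h2 : y = 0 := congrArg (fun v => v.2.1) hs
      rw [h1, h2, ht]; rfl
    let f : ℝ → ProjPlane := fun s => Quotient.mk proportional ⟨(x, y, s), hne s⟩
    have hf : Continuous f := by
      refine continuous_quotient_mk'.comp ?_
      refine Continuous.subtype_mk ?_ _
      fun_prop
    have hsub : f '' {0}ᶜ ⊆ range incl := by
      rintro Q ⟨s, hs, rfl⟩
      refine ⟨!₂[x / s, y / s], ?_⟩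
      refine Quotient.sound ⟨s⁻¹, ?_⟩
      have hs' : s ≠ 0 := hs
      simp only [Prod.smul_mk, smul_eq_mul]
      refine Prod.ext ?_ (Prod.ext ?_ ?_)
      · simp; ring
      · simp; ring
      · simp [hs']
    have h0 : f 0 ∈ closure (f '' {0}ᶜ) := by
      have hd : (0 : ℝ) ∈ closure ({0}ᶜ : Set ℝ) := (dense_compl_singleton (0 : ℝ)) 0
      exact image_closure_subset_closure_image hf ⟨0, hd, rfl⟩
    have h1 : f 0 = ⟦⟨(x, y, t), hv⟩⟧ := by
      subst ht; rfl
    rw [← h1]
    exact closure_mono hsub h0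
  · apply subset_closure
    refine ⟨!₂[x / t, y / t], ?_⟩
    refine Quotient.sound ⟨t⁻¹, ?_⟩
    simp only [Prod.smul_mk, smul_eq_mul]
    refine Prod.ext ?_ (Prod.ext ?_ ?_)
    · simp; ring
    · simp; ring
    · simp [ht]

/-- Every realization in the Euclidean plane proper has only the trivial symmetry. -/
theorem no_symmetry (point : Fin 17 → ProjPlane) (curve : Fin 17 → Set ProjPlane)
    (hR : IsRealization point curve) (hE : InEuclideanPlane point curve) (g : Plane ≃ᵢ Plane) :
    ¬ IsSymmetry point curve g := by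
  rintro ⟨hg, G, hG, hGg, hpts, hcur⟩
  obtain ⟨hps, -, hinc⟩ := hR
  have hcomm : comp ∘ G = Cfg17.ext g ∘ comp := by
    refine dense_incl.equalizer (comp_continuous.comp hG)
      ((Cfg17.ext_continuous g).comp comp_continuous) ?_
    funext x
    show comp (G (incl x)) = Cfg17.ext g (comp (incl x))
    rw [hGg, comp_incl, comp_incl, Cfg17.ext_aff]
  have himg : ∀ S : Set ProjPlane, Cfg17.ext g '' (comp '' S) = comp '' (G '' S) := by
    intro S
    rw [← image_comp, ← image_comp, hcomm]
  refine Cfg17.no_symmetry (fun i => comp (point i)) (fun j => comp '' curve j) ?_ ?_ ?_ g hg ?_ ?_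
  · intro j
    obtain ⟨γ, hγ, -, hr⟩ := hps j
    refine ⟨⟨comp ∘ γ, comp_continuous.comp γ.continuous⟩, comp_injective.comp hγ, ?_⟩
    show range (comp ∘ γ) = comp '' curve j
    rw [range_comp, hr]
  · intro i j
    rw [comp_injective.mem_set_image]
    exact hinc i j
  · intro i
    have := hE.1 i
    unfold lineAtInfinity at this
    rw [mem_compl_iff, not_not] at this
    obtain ⟨x, hx⟩ := this
    exact ⟨x, by rw [← hx, comp_incl]⟩
  · have : range (fun i => comp (point i)) = comp '' range point := by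
      rw [← range_comp]; rfl
    rw [this, himg, hpts]
  · have h1 : range (fun j => comp '' curve j) = (fun P => comp '' P) '' range curve := by
      rw [← range_comp]; rfl
    rw [h1, ← image_comp]
    have h2 : (fun P => Cfg17.ext g '' P) ∘ (fun P : Set ProjPlane => comp '' P) =
        (fun P : Set ProjPlane => comp '' P) ∘ (fun P : Set ProjPlane => G '' P) := by
      funext P
      exact himg P
    rw [h2, image_comp, hcur]

end Pool.Agent.H37.Cfg17Model
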