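import Mathlib

set_option autoImplicit false

/-!
Definitions for the problem on fractional dilates: the norms of a function `α : ℤ → [0, 1]`.
-/

namespace Pool.Agent.H37.FracDil

open scoped ENNReal NNReal

/-- The total mass `‖α‖ = ∑ i, α i` of a function `α : ℤ → [0, ∞)`. -/
noncomputable def mass (α : ℤ → ℝ≥0) : ℝ≥0∞ := ∑' i, (α i : ℝ≥0∞)

/-- The inner sum `∑_{j + c k = i} α j * α k` over all pairs `(j, k)` of integers. -/
noncomputable def corr (c : ℤ) (α : ℤ → ℝ≥0) (i : ℤ) : ℝ≥0∞ :=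
  ∑' x : {x : ℤ × ℤ // x.1 + c * x.2 = i}, (α x.1.1 : ℝ≥0∞) * (α x.1.2 : ℝ≥0∞)

/-- `‖α + c·α‖ = inf_{0 < p < 1} ∑ i, (∑_{j + c k = i} α j * α k) ^ p`; here `0 ^ p = 0`. -/
noncomputable def sumNorm (c : ℤ) (α : ℤ → ℝ≥0) : ℝ≥0∞ :=
  ⨅ p : Set.Ioo (0 : ℝ) 1, ∑' i : ℤ, corr c α i ^ (p : ℝ)

/-- The set `{a + c * b : a, b ∈ A}`. -/
def dil (c : ℤ) (A : Finset ℤ) : Finset ℤ := Finset.image₂ (fun a b => a + c * b) A A

/-- The indicator function of a finite set of integers. -/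
noncomputable def ind (A : Finset ℤ) : ℤ → ℝ≥0 := fun i => if i ∈ A then 1 else 0

end Pool.Agent.H37.FracDil
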