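import Mathlib
import Pool.Agent.H37.FracDilDefs

set_option autoImplicit false

/-!
A finite set `A` of integers with `|A + A|^2 < |A| * |A + 2A|`: construction and proofs.
-/

namespace Pool.Agent.H37.FracDil

open scoped ENNReal NNReal
open Filter Topology

/-! ### The norms of an indicator function -/

lemma mass_ind (A : Finset ℤ) : mass (ind A) = (A.card : ℝ≥0∞) := by
  unfold mass ind
  rw [tsum_eq_sum (s := A)]
  · rw [Finset.sum_congr rfl (g := fun _ => (1 : ℝ≥0∞))]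
    · simp
    · intro i hi; simp [hi]
  · intro i hi; simp [hi]

/-- number of representations -/
def reps (c : ℤ) (A : Finset ℤ) (i : ℤ) : ℕ := ((A ×ˢ A).filter (fun x => x.1 + c * x.2 = i)).card

lemma corr_ind (c : ℤ) (A : Finset ℤ) (i : ℤ) : corr c (ind A) i = (reps c A i : ℝ≥0∞) := by
  unfold corr reps
  have h := tsum_subtype (f := fun x : ℤ × ℤ => ((ind A x.1 : ℝ≥0∞) * (ind A x.2 : ℝ≥0∞)))
    {x : ℤ × ℤ | x.1 + c * x.2 = i}
  have h2 : (∑' x : {x : ℤ × ℤ // x.1 + c * x.2 = i}, (ind A x.1.1 : ℝ≥0∞) * (ind A x.1.2 : ℝ≥0∞))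
      = ∑' x : ℤ × ℤ, Set.indicator {x : ℤ × ℤ | x.1 + c * x.2 = i}
        (fun x : ℤ × ℤ => ((ind A x.1 : ℝ≥0∞) * (ind A x.2 : ℝ≥0∞))) x := h
  rw [h2, tsum_eq_sum (s := (A ×ˢ A).filter (fun x => x.1 + c * x.2 = i))]
  · rw [Finset.sum_congr rfl (g := fun _ => (1 : ℝ≥0∞))]
    · simp
    · intro x hx
      rw [Finset.mem_filter, Finset.mem_product] at hx
      have : x ∈ {x : ℤ × ℤ | x.1 + c * x.2 = i} := hx.2
      rw [Set.indicator_of_mem this]
      simp [ind, hx.1.1, hx.1.2]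
  · intro x hx
    by_cases hm : x ∈ {x : ℤ × ℤ | x.1 + c * x.2 = i}
    · rw [Set.indicator_of_mem hm]
      rw [Finset.mem_filter, Finset.mem_product] at hx
      by_cases h1 : x.1 ∈ A
      · by_cases h2 : x.2 ∈ A
        · exact absurd ⟨⟨h1, h2⟩, hm⟩ hx
        · simp [ind, h2]
      · simp [ind, h1]
    · rw [Set.indicator_of_notMem hm]

lemma reps_pos (c : ℤ) (A : Finset ℤ) (i : ℤ) : 0 < reps c A i ↔ i ∈ dil c A := by
  unfold reps dil
  rw [Finset.card_pos, Finset.mem_image₂]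
  constructor
  · rintro ⟨x, hx⟩
    rw [Finset.mem_filter, Finset.mem_product] at hx
    exact ⟨x.1, hx.1.1, x.2, hx.1.2, hx.2⟩
  · rintro ⟨a, ha, b, hb, h⟩
    exact ⟨(a, b), by rw [Finset.mem_filter, Finset.mem_product]; exact ⟨⟨ha, hb⟩, h⟩⟩

lemma tsum_pow (c : ℤ) (A : Finset ℤ) (p : ℝ) (hp : 0 < p) :
    ∑' i : ℤ, corr c (ind A) i ^ p = ∑ i ∈ dil c A, (reps c A i : ℝ≥0∞) ^ p := by
  rw [tsum_eq_sum (s := dil c A)]
  · refine Finset.sum_congr rfl ?_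
    intro i _
    rw [corr_ind]
  · intro i hi
    rw [corr_ind]
    have : reps c A i = 0 := by
      by_contra h
      exact hi ((reps_pos c A i).1 (Nat.pos_of_ne_zero h))
    rw [this]
    simp [hp]

lemma card_le_sumNorm (c : ℤ) (A : Finset ℤ) : ((dil c A).card : ℝ≥0∞) ≤ sumNorm c (ind A) := by
  unfold sumNorm
  refine le_iInf ?_
  rintro ⟨p, hp⟩
  rw [tsum_pow c A p hp.1]
  calc ((dil c A).card : ℝ≥0∞) = ∑ i ∈ dil c A, (1 : ℝ≥0∞) := by simp
    _ ≤ _ := by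
      refine Finset.sum_le_sum ?_
      intro i hi
      have h1 : (1 : ℝ≥0∞) ≤ (reps c A i : ℝ≥0∞) := by
        have := (reps_pos c A i).2 hi
        exact_mod_cast this
      calc (1 : ℝ≥0∞) = 1 ^ p := (ENNReal.one_rpow p).symm
        _ ≤ _ := ENNReal.rpow_le_rpow h1 hp.1.le

lemma sumNorm_le_card (c : ℤ) (A : Finset ℤ) : sumNorm c (ind A) ≤ ((dil c A).card : ℝ≥0∞) := by
  have ht : Tendsto (fun p : ℝ => ∑ i ∈ dil c A, (reps c A i : ℝ≥0∞) ^ p) (𝓝[>] 0)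
      (𝓝 (∑ i ∈ dil c A, (1 : ℝ≥0∞))) := by
    refine tendsto_finsetSum _ ?_
    intro i hi
    have hpos := (reps_pos c A i).2 hi
    have h0 : ((reps c A i : ℝ≥0)) ≠ 0 := by exact_mod_cast hpos.ne'
    have h1 : Tendsto (fun p : ℝ => ((reps c A i : ℝ≥0)) ^ p) (𝓝[>] 0) (𝓝 1) := by
      have hc : Continuous (fun p : ℝ => ((reps c A i : ℝ≥0)) ^ p) := by
        rw [continuous_iff_continuousAt]
        intro p
        exact (NNReal.continuousAt_rpow (x := (reps c A i : ℝ≥0)) (y := p) (Or.inl h0)).comp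
          (f := fun p : ℝ => ((reps c A i : ℝ≥0), p)) (by fun_prop)
      have := (hc.tendsto 0).mono_left (nhdsWithin_le_nhds (s := Set.Ioi (0 : ℝ)))
      simpa using this
    have h2 := (ENNReal.tendsto_coe (f := 𝓝[>] (0 : ℝ))).2 h1
    refine (h2.congr ?_)
    intro p
    rw [ENNReal.coe_rpow_of_ne_zero h0]
    simp
  have hcard : (∑ i ∈ dil c A, (1 : ℝ≥0∞)) = ((dil c A).card : ℝ≥0∞) := by simp
  rw [hcard] at ht
  refine ge_of_tendsto ht ?_
  have hev : ∀ᶠ p : ℝ in 𝓝[>] 0, p ∈ Set.Ioo (0 : ℝ) 1 := Ioo_mem_nhdsGT (by norm_num)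
  filter_upwards [hev] with p hp
  rw [← tsum_pow c A p hp.1]
  exact iInf_le (fun p : Set.Ioo (0 : ℝ) 1 => ∑' i : ℤ, corr c (ind A) i ^ (p : ℝ)) ⟨p, hp⟩

lemma sumNorm_ind (c : ℤ) (A : Finset ℤ) : sumNorm c (ind A) = ((dil c A).card : ℝ≥0∞) :=
  le_antisymm (sumNorm_le_card c A) (card_le_sumNorm c A)

/-! ### The base-4 digit sets -/

/-- integers with `r` base-4 digits, all in `{0, 1}` -/
def F : ℕ → Finset ℤ
  | 0 => {0}
  | r + 1 => (F r).image (fun x => 4 * x) ∪ (F r).image (fun x => 4 * x + 1)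

/-- integers with `r` base-4 digits, all in `{0, 1, 2}` -/
def SF : ℕ → Finset ℤ
  | 0 => {0}
  | r + 1 => ((SF r).image (fun x => 4 * x) ∪ (SF r).image (fun x => 4 * x + 1)) ∪
      (SF r).image (fun x => 4 * x + 2)

lemma mem_F_succ (r : ℕ) (x : ℤ) : x ∈ F (r + 1) ↔ ∃ y ∈ F r, x = 4 * y ∨ x = 4 * y + 1 := by
  simp only [F, Finset.mem_union, Finset.mem_image]
  constructor
  · rintro (⟨y, hy, rfl⟩ | ⟨y, hy, rfl⟩)
    · exact ⟨y, hy, Or.inl rfl⟩
    · exact ⟨y, hy, Or.inr rfl⟩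
  · rintro ⟨y, hy, rfl | rfl⟩
    · exact Or.inl ⟨y, hy, rfl⟩
    · exact Or.inr ⟨y, hy, rfl⟩

lemma mem_SF_succ (r : ℕ) (x : ℤ) :
    x ∈ SF (r + 1) ↔ ∃ y ∈ SF r, x = 4 * y ∨ x = 4 * y + 1 ∨ x = 4 * y + 2 := by
  simp only [SF, Finset.mem_union, Finset.mem_image]
  constructor
  · rintro ((⟨y, hy, rfl⟩ | ⟨y, hy, rfl⟩) | ⟨y, hy, rfl⟩)
    · exact ⟨y, hy, Or.inl rfl⟩
    · exact ⟨y, hy, Or.inr (Or.inl rfl)⟩
    · exact ⟨y, hy, Or.inr (Or.inr rfl)⟩
  · rintro ⟨y, hy, rfl | rfl | rfl⟩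
    · exact Or.inl (Or.inl ⟨y, hy, rfl⟩)
    · exact Or.inl (Or.inr ⟨y, hy, rfl⟩)
    · exact Or.inr ⟨y, hy, rfl⟩

lemma F_bound (r : ℕ) : ∀ x ∈ F r, 0 ≤ x ∧ 3 * x + 1 ≤ 4 ^ r := by
  induction r with
  | zero => intro x hx; simp [F] at hx; subst hx; norm_num
  | succ r ih =>
    intro x hx
    rw [mem_F_succ] at hx
    obtain ⟨y, hy, h⟩ := hx
    obtain ⟨h1, h2⟩ := ih y hy
    rw [pow_succ]
    rcases h with rfl | rfl
    · constructor <;> linarith
    · constructor <;> linarith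

lemma zero_mem_F (r : ℕ) : (0 : ℤ) ∈ F r := by
  induction r with
  | zero => simp [F]
  | succ r ih => rw [mem_F_succ]; exact ⟨0, ih, Or.inl rfl⟩

lemma F_add (r : ℕ) : ∀ x ∈ F r, ∀ y ∈ F r, x + y ∈ SF r := by
  induction r with
  | zero => intro x hx y hy; simp [F] at hx hy; subst hx; subst hy; simp [SF]
  | succ r ih =>
    intro x hx y hy
    rw [mem_F_succ] at hx hy
    obtain ⟨x', hx', h1⟩ := hx
    obtain ⟨y', hy', h2⟩ := hy
    rw [mem_SF_succ]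
    refine ⟨x' + y', ih _ hx' _ hy', ?_⟩
    rcases h1 with rfl | rfl <;> rcases h2 with rfl | rfl
    · left; ring
    · right; left; ring
    · right; left; ring
    · right; right; ring

lemma card_SF (r : ℕ) : (SF r).card ≤ 3 ^ r := by
  induction r with
  | zero => simp [SF]
  | succ r ih =>
    have h1 := Finset.card_union_le ((SF r).image (fun x => 4 * x) ∪ (SF r).image (fun x => 4 * x + 1))
      ((SF r).image (fun x => 4 * x + 2))
    have h2 := Finset.card_union_le ((SF r).image (fun x => 4 * x)) ((SF r).image (fun x => 4 * x + 1))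
    have h3 : ((SF r).image (fun x => 4 * x)).card ≤ (SF r).card := Finset.card_image_le
    have h4 : ((SF r).image (fun x => 4 * x + 1)).card ≤ (SF r).card := Finset.card_image_le
    have h5 : ((SF r).image (fun x => 4 * x + 2)).card ≤ (SF r).card := Finset.card_image_le
    have h6 : SF (r + 1) = ((SF r).image (fun x => 4 * x) ∪ (SF r).image (fun x => 4 * x + 1)) ∪
      (SF r).image (fun x => 4 * x + 2) := rfl
    rw [h6, pow_succ]
    omega

lemma F_cover (r : ℕ) : ∀ n : ℤ, 0 ≤ n → n < 4 ^ r → ∃ x ∈ F r, ∃ y ∈ F r, n = x + 2 * y := by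
  induction r with
  | zero =>
    intro n h0 h1
    have : n = 0 := by simp at h1; omega
    subst this
    exact ⟨0, by simp [F], 0, by simp [F], by norm_num⟩
  | succ r ih =>
    intro n h0 h1
    rw [pow_succ] at h1
    obtain ⟨x, hx, y, hy, h⟩ := ih (n / 4) (by omega) (by omega)
    have hn : n = 4 * (n / 4) + n % 4 := by omega
    have hm : n % 4 = 0 ∨ n % 4 = 1 ∨ n % 4 = 2 ∨ n % 4 = 3 := by omega
    rcases hm with hm | hm | hm | hm
    · exact ⟨4 * x, (mem_F_succ _ _).2 ⟨x, hx, Or.inl rfl⟩, 4 * y,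
        (mem_F_succ _ _).2 ⟨y, hy, Or.inl rfl⟩, by omega⟩
    · exact ⟨4 * x + 1, (mem_F_succ _ _).2 ⟨x, hx, Or.inr rfl⟩, 4 * y,
        (mem_F_succ _ _).2 ⟨y, hy, Or.inl rfl⟩, by omega⟩
    · exact ⟨4 * x, (mem_F_succ _ _).2 ⟨x, hx, Or.inl rfl⟩, 4 * y + 1,
        (mem_F_succ _ _).2 ⟨y, hy, Or.inr rfl⟩, by omega⟩
    · exact ⟨4 * x + 1, (mem_F_succ _ _).2 ⟨x, hx, Or.inr rfl⟩, 4 * y + 1,
        (mem_F_succ _ _).2 ⟨y, hy, Or.inr rfl⟩, by omega⟩

/-! ### The five-dimensional sets and their projection to the integers -/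

/-- five coordinates -/
abbrev G := ℤ × ℤ × ℤ × ℤ × ℤ

/-- the interval `[0, n)` -/
noncomputable def I (n : ℕ) : Finset ℤ := Finset.Ico 0 (n : ℤ)

lemma mem_I (n : ℕ) (x : ℤ) : x ∈ I n ↔ 0 ≤ x ∧ x < n := by simp [I]

lemma card_I (n : ℕ) : (I n).card = n := by simp [I]

/-- a box -/
noncomputable def box (s : Finset ℤ) (a b c d : ℕ) : Finset G := s ×ˢ I a ×ˢ I b ×ˢ I c ×ˢ I d

lemma mem_box (s : Finset ℤ) (a b c d : ℕ) (v1 v2 v3 v4 v5 : ℤ) :
    (v1, v2, v3, v4, v5) ∈ box s a b c d ↔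
    v1 ∈ s ∧ (0 ≤ v2 ∧ v2 < a) ∧ (0 ≤ v3 ∧ v3 < b) ∧
    (0 ≤ v4 ∧ v4 < c) ∧ (0 ≤ v5 ∧ v5 < d) := by
  unfold box
  simp only [Finset.mem_product, mem_I]

lemma card_box (s : Finset ℤ) (a b c d : ℕ) :
    (box s a b c d).card = s.card * (a * (b * (c * d))) := by
  unfold box
  simp only [Finset.card_product, card_I]

/-- mixed radix expansion with base `B` -/
def φ (B : ℤ) (v : G) : ℤ := v.1 + B * (v.2.1 + B * (v.2.2.1 + B * (v.2.2.2.1 + B * v.2.2.2.2)))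

lemma step_inj (B a a' u u' : ℤ) (h0 : 0 ≤ a) (h1 : a < B) (h0' : 0 ≤ a') (h1' : a' < B)
    (h : a + B * u = a' + B * u') : a = a' ∧ u = u' := by
  have ha : (a + B * u) % B = a := by
    rw [Int.add_mul_emod_self_left]; exact Int.emod_eq_of_lt h0 h1
  have ha' : (a' + B * u') % B = a' := by
    rw [Int.add_mul_emod_self_left]; exact Int.emod_eq_of_lt h0' h1'
  have haa : a = a' := by rw [← ha, ← ha', h]
  refine ⟨haa, ?_⟩
  subst haa
  have hB : B ≠ 0 := by omega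
  have : B * u = B * u' := by linarith
  exact mul_left_cancel₀ hB this

lemma φ_inj (B : ℤ) (s : Finset ℤ) (hs : ∀ x ∈ s, 0 ≤ x ∧ x < B) (a b c d : ℕ) (ha : a ≤ B)
    (hb : b ≤ B) (hc : c ≤ B) : Set.InjOn (φ B) (box s a b c d : Set G) := by
  rintro ⟨v1, v2, v3, v4, v5⟩ hv ⟨w1, w2, w3, w4, w5⟩ hw h
  rw [Finset.mem_coe, mem_box] at hv hw
  unfold φ at h
  simp only at h
  obtain ⟨hv1, hv2, hv3, hv4, hv5⟩ := hv
  obtain ⟨hw1, hw2, hw3, hw4, hw5⟩ := hw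
  obtain ⟨e1, k1⟩ := step_inj B _ _ _ _ (hs v1 hv1).1 (hs v1 hv1).2 (hs w1 hw1).1 (hs w1 hw1).2 h
  obtain ⟨e2, k2⟩ := step_inj B _ _ _ _ hv2.1 (by omega) hw2.1 (by omega) k1
  obtain ⟨e3, k3⟩ := step_inj B _ _ _ _ hv3.1 (by omega) hw3.1 (by omega) k2
  obtain ⟨e4, k4⟩ := step_inj B _ _ _ _ hv4.1 (by omega) hw4.1 (by omega) k3
  rw [e1, e2, e3, e4, k4]

/-- the three pieces -/
noncomputable def A₁ (r : ℕ) : Finset G := box (I (4 ^ r)) 100 100 100 1
/-- the three pieces -/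
noncomputable def A₂ (r : ℕ) : Finset G := box (F r) 2 2 2 1000000
/-- the three pieces -/
noncomputable def A₃ (r : ℕ) : Finset G := box (F r) 10000 10000 10000 1

/-- the union of the pieces -/
noncomputable def A' (r : ℕ) : Finset G := A₁ r ∪ (A₂ r ∪ A₃ r)

/-- the counterexample, with parameters -/
noncomputable def A (r : ℕ) (B : ℤ) : Finset ℤ := (A' r).image (φ B)

/-- the superset of the sumset -/
noncomputable def S (r : ℕ) : Finset G :=
  box (I (2 * 4 ^ r)) 199 199 199 1 ∪ (box (I (4 ^ r + 4 ^ r / 3)) 101 101 101 1000000 ∪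
  (box (I (4 ^ r + 4 ^ r / 3)) 10099 10099 10099 1 ∪ (box (SF r) 3 3 3 1999999 ∪
  (box (SF r) 10001 10001 10001 1000000 ∪ box (SF r) 19999 19999 19999 1))))

lemma mem_A' (r : ℕ) (v : G) : v ∈ A' r ↔ v ∈ A₁ r ∨ v ∈ A₂ r ∨ v ∈ A₃ r := by
  unfold A'; simp only [Finset.mem_union]

lemma mem_S (r : ℕ) (v : G) : v ∈ S r ↔ v ∈ box (I (2 * 4 ^ r)) 199 199 199 1 ∨
    v ∈ box (I (4 ^ r + 4 ^ r / 3)) 101 101 101 1000000 ∨
    v ∈ box (I (4 ^ r + 4 ^ r / 3)) 10099 10099 10099 1 ∨ v ∈ box (SF r) 3 3 3 1999999 ∨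
    v ∈ box (SF r) 10001 10001 10001 1000000 ∨ v ∈ box (SF r) 19999 19999 19999 1 := by
  unfold S; simp only [Finset.mem_union]

lemma I_add_I (n : ℕ) (x y : ℤ) (hx : x ∈ I n) (hy : y ∈ I n) : x + y ∈ I (2 * n) := by
  rw [mem_I] at *; push_cast; omega

lemma I_add_F (r : ℕ) (x y : ℤ) (hx : x ∈ I (4 ^ r)) (hy : y ∈ F r) :
    x + y ∈ I (4 ^ r + 4 ^ r / 3) := by
  have h := F_bound r y hy
  rw [mem_I] at *
  push_cast at *
  generalize (4 : ℤ) ^ r = n at *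
  omega

lemma F_add_I (r : ℕ) (x y : ℤ) (hx : x ∈ F r) (hy : y ∈ I (4 ^ r)) :
    x + y ∈ I (4 ^ r + 4 ^ r / 3) := by
  rw [add_comm x y]; exact I_add_F r y x hy hx

lemma add_mem_S (r : ℕ) (v w : G) (hv : v ∈ A' r) (hw : w ∈ A' r) : v + w ∈ S r := by
  obtain ⟨v1, v2, v3, v4, v5⟩ := v
  obtain ⟨w1, w2, w3, w4, w5⟩ := w
  rw [mem_A'] at hv hw
  rw [mem_S]
  rw [show (v1, v2, v3, v4, v5) + (w1, w2, w3, w4, w5) =
    ((v1 + w1, v2 + w2, v3 + w3, v4 + w4, v5 + w5) : G) from rfl]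
  unfold A₁ A₂ A₃ at hv hw
  rw [mem_box, mem_box, mem_box] at hv hw
  rw [mem_box, mem_box, mem_box, mem_box, mem_box, mem_box]
  rcases hv with ⟨hv1, hv⟩ | ⟨hv1, hv⟩ | ⟨hv1, hv⟩ <;>
    rcases hw with ⟨hw1, hw⟩ | ⟨hw1, hw⟩ | ⟨hw1, hw⟩
  · left; exact ⟨I_add_I _ _ _ hv1 hw1, by omega⟩
  · right; left; exact ⟨I_add_F _ _ _ hv1 hw1, by omega⟩
  · right; right; left; exact ⟨I_add_F _ _ _ hv1 hw1, by omega⟩
  · right; left; exact ⟨F_add_I _ _ _ hv1 hw1, by omega⟩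
  · right; right; right; left; exact ⟨F_add _ _ hv1 _ hw1, by omega⟩
  · right; right; right; right; left; exact ⟨F_add _ _ hv1 _ hw1, by omega⟩
  · right; right; left; exact ⟨F_add_I _ _ _ hv1 hw1, by omega⟩
  · right; right; right; right; left; exact ⟨F_add _ _ hv1 _ hw1, by omega⟩
  · right; right; right; right; right; exact ⟨F_add _ _ hv1 _ hw1, by omega⟩

lemma φ_add (B : ℤ) (v w : G) : φ B (v + w) = φ B v + φ B w := by
  obtain ⟨v1, v2, v3, v4, v5⟩ := v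
  obtain ⟨w1, w2, w3, w4, w5⟩ := w
  simp only [φ, Prod.mk_add_mk]
  ring

lemma card_sum_le (r : ℕ) (B : ℤ) : (dil 1 (A r B)).card ≤ (S r).card := by
  have hsub : dil 1 (A r B) ⊆ (S r).image (φ B) := by
    intro x hx
    unfold dil at hx
    rw [Finset.mem_image₂] at hx
    obtain ⟨a, ha, b, hb, rfl⟩ := hx
    unfold A at ha hb
    rw [Finset.mem_image] at ha hb
    obtain ⟨v, hv, rfl⟩ := ha
    obtain ⟨w, hw, rfl⟩ := hb
    rw [Finset.mem_image]
    exact ⟨v + w, add_mem_S r v w hv hw, by rw [φ_add]; ring⟩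
  exact (Finset.card_le_card hsub).trans Finset.card_image_le

lemma card_S_le (r : ℕ) : (S r).card ≤ 2 * 4 ^ r * (199 * (199 * (199 * 1))) +
    ((4 ^ r + 4 ^ r / 3) * (101 * (101 * (101 * 1000000))) +
    ((4 ^ r + 4 ^ r / 3) * (10099 * (10099 * (10099 * 1))) +
    (3 ^ r * (3 * (3 * (3 * 1999999))) +
    (3 ^ r * (10001 * (10001 * (10001 * 1000000))) +
      3 ^ r * (19999 * (19999 * (19999 * 1))))))) := by
  have hSF : (SF r).card ≤ 3 ^ r := card_SF r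
  unfold S
  refine (Finset.card_union_le _ _).trans (Nat.add_le_add ?_ ((Finset.card_union_le _ _).trans
    (Nat.add_le_add ?_ ((Finset.card_union_le _ _).trans (Nat.add_le_add ?_
    ((Finset.card_union_le _ _).trans (Nat.add_le_add ?_ ((Finset.card_union_le _ _).trans
    (Nat.add_le_add ?_ ?_)))))))))
  · rw [card_box, card_I]
  · rw [card_box, card_I]
  · rw [card_box, card_I]
  · rw [card_box]; exact Nat.mul_le_mul hSF le_rfl
  · rw [card_box]; exact Nat.mul_le_mul hSF le_rfl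
  · rw [card_box]; exact Nat.mul_le_mul hSF le_rfl

lemma I_bound (r : ℕ) (B : ℤ) (hB : 4 ^ r ≤ B) : ∀ x ∈ I (4 ^ r), 0 ≤ x ∧ x < B := by
  intro x hx
  rw [mem_I] at hx
  push_cast at hx
  exact ⟨hx.1, lt_of_lt_of_le hx.2 hB⟩

lemma le_card_A (r : ℕ) (B : ℤ) (hB : 4 ^ r ≤ B) (hB2 : 20000 ≤ B) :
    4 ^ r * (100 * (100 * (100 * 1))) ≤ (A r B).card := by
  have h1 : (A₁ r).card = 4 ^ r * (100 * (100 * (100 * 1))) := by
    unfold A₁
    rw [card_box, card_I]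
  have h2 : ((A₁ r).image (φ B)).card = (A₁ r).card := by
    refine Finset.card_image_of_injOn ?_
    exact φ_inj B _ (I_bound r B hB) _ _ _ _ (by push_cast; omega) (by push_cast; omega)
      (by push_cast; omega)
  rw [← h1, ← h2]
  refine Finset.card_le_card ?_
  unfold A A'
  exact Finset.image_subset_image Finset.subset_union_left

lemma le_card_dil (r : ℕ) (B : ℤ) (hB : 4 ^ r ≤ B) (hB2 : 20000 ≤ B) :
    4 ^ r * (20000 * (20000 * (20000 * 1000000))) ≤ (dil 2 (A r B)).card := by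
  have h1 : (box (I (4 ^ r)) 20000 20000 20000 1000000).card =
      4 ^ r * (20000 * (20000 * (20000 * 1000000))) := by
    rw [card_box, card_I]
  have h2 : ((box (I (4 ^ r)) 20000 20000 20000 1000000).image (φ B)).card =
      (box (I (4 ^ r)) 20000 20000 20000 1000000).card := by
    refine Finset.card_image_of_injOn ?_
    exact φ_inj B _ (I_bound r B hB) _ _ _ _ (by push_cast; omega) (by push_cast; omega)
      (by push_cast; omega)
  rw [← h1, ← h2]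
  refine Finset.card_le_card ?_
  intro x hx
  rw [Finset.mem_image] at hx
  obtain ⟨v, hv, rfl⟩ := hx
  obtain ⟨v1, v2, v3, v4, v5⟩ := v
  rw [mem_box, mem_I] at hv
  obtain ⟨⟨hv1, hv1'⟩, hv⟩ := hv
  push_cast at hv1'
  obtain ⟨f, hf, f', hf', hff⟩ := F_cover r v1 hv1 hv1'
  unfold dil
  rw [Finset.mem_image₂]
  refine ⟨φ B (f, v2 % 2, v3 % 2, v4 % 2, v5), ?_, φ B (f', v2 / 2, v3 / 2, v4 / 2, 0), ?_, ?_⟩
  · unfold A
    refine Finset.mem_image_of_mem _ ?_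
    rw [mem_A']
    right; left
    unfold A₂
    rw [mem_box]
    exact ⟨hf, by omega⟩
  · unfold A
    refine Finset.mem_image_of_mem _ ?_
    rw [mem_A']
    right; right
    unfold A₃
    rw [mem_box]
    exact ⟨hf', by omega⟩
  · unfold φ
    simp only
    have e2 := Int.emod_add_mul_ediv v2 2
    have e3 := Int.emod_add_mul_ediv v3 2
    have e4 := Int.emod_add_mul_ediv v4 2
    linear_combination (-1 : ℤ) * hff + B * e2 + B * B * e3 + B * B * B * e4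

lemma numeric (r x y z : ℕ) (hr : r = 80) (hx : x ≤ 2 * 4 ^ r * (199 * (199 * (199 * 1))) +
    ((4 ^ r + 4 ^ r / 3) * (101 * (101 * (101 * 1000000))) +
    ((4 ^ r + 4 ^ r / 3) * (10099 * (10099 * (10099 * 1))) +
    (3 ^ r * (3 * (3 * (3 * 1999999))) +
    (3 ^ r * (10001 * (10001 * (10001 * 1000000))) +
      3 ^ r * (19999 * (19999 * (19999 * 1))))))))
    (hz : 4 ^ r * (100 * (100 * (100 * 1))) ≤ z)
    (hy : 4 ^ r * (20000 * (20000 * (20000 * 1000000))) ≤ y) : x ^ 2 < z * y := by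
  subst hr
  refine lt_of_le_of_lt (Nat.pow_le_pow_left hx 2) (lt_of_lt_of_le ?_ (Nat.mul_le_mul hz hy))
  norm_num

lemma set_inequality_aux (r : ℕ) (hr : r = 80) (B : ℤ) (hB : 4 ^ r ≤ B) (hB2 : 20000 ≤ B) :
    (dil 1 (A r B)).card ^ 2 < (A r B).card * (dil 2 (A r B)).card :=
  numeric r _ _ _ hr ((card_sum_le r B).trans (card_S_le r)) (le_card_A r B hB hB2)
    (le_card_dil r B hB hB2)

lemma set_inequality : ∃ A : Finset ℤ, (dil 1 A).card ^ 2 < A.card * (dil 2 A).card := by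
  obtain ⟨r, hr⟩ : ∃ r : ℕ, r = 80 := ⟨80, rfl⟩
  have h4 : (0 : ℤ) < 4 ^ r := by positivity
  exact ⟨A r (4 ^ r + 20000), set_inequality_aux r hr _ (by omega) (by omega)⟩


end Pool.Agent.H37.FracDil
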